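import Mathlib

set_option autoImplicit false

/-! The free Hopf algebra on a matrix coalgebra (Takeuchi). -/

namespace Pool.Agent.Helper30.FreeHopf

open TensorProduct

variable (k : Type) [Field k] (ι : Type) [Fintype ι] [DecidableEq ι]

/-- The defining relations: writing g_r for the matrix of the r-th layer of generators,
the transpose of g_(r+1) is the inverse matrix of g_r. -/
inductive Rel : FreeAlgebra k (ℕ × ι × ι) → FreeAlgebra k (ℕ × ι × ι) → Prop
  | left (r : ℕ) (i j : ι) : Rel (∑ l, FreeAlgebra.ι k (r, i, l) * FreeAlgebra.ι k (r + 1, j, l))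
      (if i = j then 1 else 0)
  | right (r : ℕ) (i j : ι) : Rel (∑ l, FreeAlgebra.ι k (r + 1, l, i) * FreeAlgebra.ι k (r, l, j))
      (if i = j then 1 else 0)

/-- The free Hopf algebra on the coalgebra of matrices. -/
def FH : Type := RingQuot (Rel k ι)

noncomputable instance : Ring (FH k ι) := inferInstanceAs (Ring (RingQuot (Rel k ι)))
noncomputable instance : Algebra k (FH k ι) := inferInstanceAs (Algebra k (RingQuot (Rel k ι)))

variable {k ι}

/-- The quotient map. -/
noncomputable def mk : FreeAlgebra k (ℕ × ι × ι) →ₐ[k] FH k ι := RingQuot.mkAlgHom k (Rel k ι)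

variable (k) in
/-- The generators. -/
noncomputable def g (r : ℕ) (i j : ι) : FH k ι := mk (FreeAlgebra.ι k (r, i, j))

lemma g_left (r : ℕ) (i j : ι) : ∑ l, g k r i l * g k (r + 1) j l = if i = j then 1 else 0 := by
  have h := RingQuot.mkAlgHom_rel k (Rel.left (k := k) r i j)
  rw [map_sum] at h
  simp only [map_mul] at h
  rw [show (RingQuot.mkAlgHom k (Rel k ι)) (if i = j then 1 else 0) = if i = j then 1 else 0 by
    split_ifs <;> simp] at h
  exact h

lemma g_right (r : ℕ) (i j : ι) : ∑ l, g k (r + 1) l i * g k r l j = if i = j then 1 else 0 := by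
  have h := RingQuot.mkAlgHom_rel k (Rel.right (k := k) r i j)
  rw [map_sum] at h
  simp only [map_mul] at h
  rw [show (RingQuot.mkAlgHom k (Rel k ι)) (if i = j then 1 else 0) = if i = j then 1 else 0 by
    split_ifs <;> simp] at h
  exact h

/-- The universal property. -/
noncomputable def lift {B : Type} [Semiring B] [Algebra k B] (b : ℕ → ι → ι → B)
    (h1 : ∀ r i j, ∑ l, b r i l * b (r + 1) j l = if i = j then 1 else 0)
    (h2 : ∀ r i j, ∑ l, b (r + 1) l i * b r l j = if i = j then 1 else 0) :
    FH k ι →ₐ[k] B :=
  RingQuot.liftAlgHom k ⟨FreeAlgebra.lift k (fun p => b p.1 p.2.1 p.2.2), by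
    intro x y hxy
    induction hxy with
    | left r i j =>
      simp only [map_sum, map_mul, FreeAlgebra.lift_ι_apply, h1]
      split_ifs <;> simp
    | right r i j =>
      simp only [map_sum, map_mul, FreeAlgebra.lift_ι_apply, h2]
      split_ifs <;> simp⟩

@[simp] lemma lift_g {B : Type} [Semiring B] [Algebra k B] (b : ℕ → ι → ι → B)
    (h1 : ∀ r i j, ∑ l, b r i l * b (r + 1) j l = if i = j then 1 else 0)
    (h2 : ∀ r i j, ∑ l, b (r + 1) l i * b r l j = if i = j then 1 else 0) (r : ℕ) (i j : ι) :
    lift b h1 h2 (g k r i j) = b r i j :=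
  (RingQuot.liftAlgHom_mkAlgHom_apply k _ _ _).trans (FreeAlgebra.lift_ι_apply _ _)

lemma mk_surjective : Function.Surjective (mk : FreeAlgebra k (ℕ × ι × ι) →ₐ[k] FH k ι) :=
  RingQuot.mkAlgHom_surjective k _

lemma hom_ext {B : Type} [Semiring B] [Algebra k B] {f f' : FH k ι →ₐ[k] B}
    (h : ∀ r i j, f (g k r i j) = f' (g k r i j)) : f = f' := by
  apply RingQuot.ringQuot_ext'
  apply FreeAlgebra.hom_ext
  funext p
  exact h p.1 p.2.1 p.2.2

/-- Induction on elements. -/
lemma ind {P : FH k ι → Prop} (h0 : ∀ c : k, P (algebraMap k _ c))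
    (hg : ∀ r i j, P (g k r i j)) (hm : ∀ a b, P a → P b → P (a * b))
    (ha : ∀ a b, P a → P b → P (a + b)) (x : FH k ι) : P x := by
  obtain ⟨y, rfl⟩ := mk_surjective x
  induction y using FreeAlgebra.induction with
  | grade0 c => rw [AlgHom.commutes]; exact h0 c
  | grade1 p => exact hg p.1 p.2.1 p.2.2
  | mul a b h1 h2 => rw [map_mul]; exact hm _ _ h1 h2
  | add a b h1 h2 => rw [map_add]; exact ha _ _ h1 h2

/-- The comultiplication. -/
noncomputable def comulHom : FH k ι →ₐ[k] FH k ι ⊗[k] FH k ι :=
  lift (fun r i j => ∑ l, g k r i l ⊗ₜ[k] g k r l j)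
    (by
      intro r i j
      calc ∑ l, (∑ a, g k r i a ⊗ₜ[k] g k r a l) * (∑ b, g k (r + 1) j b ⊗ₜ[k] g k (r + 1) b l)
          = ∑ l, ∑ a, ∑ b, (g k r i a * g k (r + 1) j b) ⊗ₜ[k] (g k r a l * g k (r + 1) b l) := by
            simp only [Finset.sum_mul_sum, Algebra.TensorProduct.tmul_mul_tmul]
        _ = ∑ a, ∑ b, (g k r i a * g k (r + 1) j b) ⊗ₜ[k] (∑ l, g k r a l * g k (r + 1) b l) := by
            rw [Finset.sum_comm]
            refine Finset.sum_congr rfl fun a _ => ?_
            rw [Finset.sum_comm]
            refine Finset.sum_congr rfl fun b _ => ?_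
            rw [TensorProduct.tmul_sum]
        _ = ∑ a, (g k r i a * g k (r + 1) j a) ⊗ₜ[k] 1 := by
            refine Finset.sum_congr rfl fun a _ => ?_
            rw [Finset.sum_eq_single a]
            · rw [g_left, if_pos rfl]
            · intro b _ hb
              rw [g_left, if_neg (Ne.symm hb), TensorProduct.tmul_zero]
            · simp
        _ = if i = j then 1 else 0 := by
            rw [← TensorProduct.sum_tmul, g_left]
            split_ifs
            · rfl
            · simp)
    (by
      intro r i j
      calc ∑ l, (∑ a, g k (r + 1) l a ⊗ₜ[k] g k (r + 1) a i) * (∑ b, g k r l b ⊗ₜ[k] g k r b j)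
          = ∑ l, ∑ a, ∑ b, (g k (r + 1) l a * g k r l b) ⊗ₜ[k] (g k (r + 1) a i * g k r b j) := by
            simp only [Finset.sum_mul_sum, Algebra.TensorProduct.tmul_mul_tmul]
        _ = ∑ a, ∑ b, (∑ l, g k (r + 1) l a * g k r l b) ⊗ₜ[k] (g k (r + 1) a i * g k r b j) := by
            rw [Finset.sum_comm]
            refine Finset.sum_congr rfl fun a _ => ?_
            rw [Finset.sum_comm]
            refine Finset.sum_congr rfl fun b _ => ?_
            rw [TensorProduct.sum_tmul]
        _ = ∑ a, 1 ⊗ₜ[k] (g k (r + 1) a i * g k r a j) := by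
            refine Finset.sum_congr rfl fun a _ => ?_
            rw [Finset.sum_eq_single a]
            · rw [g_right, if_pos rfl]
            · intro b _ hb
              rw [g_right, if_neg (Ne.symm hb), TensorProduct.zero_tmul]
            · simp
        _ = if i = j then 1 else 0 := by
            rw [← TensorProduct.tmul_sum, g_right]
            split_ifs
            · rfl
            · simp)

@[simp] lemma comulHom_g (r : ℕ) (i j : ι) :
    comulHom (g k r i j) = ∑ l, g k r i l ⊗ₜ[k] g k r l j := lift_g _ _ _ _ _ _

/-- The counit. -/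
noncomputable def counitHom : FH k ι →ₐ[k] k :=
  lift (fun _ i j => if i = j then 1 else 0)
    (by
      intro r i j
      simp)
    (by
      intro r i j
      simp [eq_comm])

@[simp] lemma counitHom_g (r : ℕ) (i j : ι) :
    counitHom (g k r i j) = if i = j then 1 else 0 := lift_g _ _ _ _ _ _

/-- The antipode as a homomorphism to the opposite algebra. -/
noncomputable def antiHom : FH k ι →ₐ[k] (FH k ι)ᵐᵒᵖ :=
  lift (fun r i j => MulOpposite.op (g k (r + 1) j i))
    (by
      intro r i j
      have h := g_right (k := k) (r + 1) j i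
      have h2 := congrArg MulOpposite.op h
      rw [Finset.op_sum] at h2
      simp only [MulOpposite.op_mul] at h2
      rw [h2]
      by_cases hij : i = j
      · simp [hij]
      · simp [hij, Ne.symm hij])
    (by
      intro r i j
      have h := g_left (k := k) (r + 1) j i
      have h2 := congrArg MulOpposite.op h
      rw [Finset.op_sum] at h2
      simp only [MulOpposite.op_mul] at h2
      rw [h2]
      by_cases hij : i = j
      · simp [hij]
      · simp [hij, Ne.symm hij])

@[simp] lemma antiHom_g (r : ℕ) (i j : ι) :
    antiHom (g k r i j) = MulOpposite.op (g k (r + 1) j i) := lift_g _ _ _ _ _ _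

/-- The antipode. -/
noncomputable def anti : FH k ι →ₗ[k] FH k ι :=
  (MulOpposite.opLinearEquiv k).symm.toLinearMap ∘ₗ antiHom.toLinearMap

lemma anti_apply (x : FH k ι) : anti x = MulOpposite.unop (antiHom x) := rfl

@[simp] lemma anti_g (r : ℕ) (i j : ι) : anti (g k r i j) = g k (r + 1) j i := by
  rw [anti_apply, antiHom_g, MulOpposite.unop_op]

lemma anti_mul (x y : FH k ι) : anti (x * y) = anti y * anti x := by
  simp only [anti_apply, map_mul, MulOpposite.unop_mul]

lemma anti_algebraMap (c : k) : anti (algebraMap k (FH k ι) c) = algebraMap k _ c := by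
  rw [anti_apply, AlgHom.commutes]
  rfl

noncomputable instance instBialgebra : Bialgebra k (FH k ι) :=
  Bialgebra.ofAlgHom comulHom counitHom
    (by
      apply hom_ext
      intro r i j
      simp only [AlgHom.comp_apply, comulHom_g, map_sum, Algebra.TensorProduct.map_tmul]
      simp only [TensorProduct.sum_tmul, TensorProduct.tmul_sum, map_sum]
      rw [Finset.sum_comm]
      rfl)
    (by
      apply hom_ext
      intro r i j
      simp only [AlgHom.comp_apply, comulHom_g, map_sum, Algebra.TensorProduct.map_tmul,
        counitHom_g]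
      rw [Finset.sum_eq_single i]
      · simp
      · intro b _ hb
        simp [Ne.symm hb]
      · simp)
    (by
      apply hom_ext
      intro r i j
      simp only [AlgHom.comp_apply, comulHom_g, map_sum, Algebra.TensorProduct.map_tmul,
        counitHom_g]
      rw [Finset.sum_eq_single j]
      · simp
      · intro b _ hb
        simp [hb]
      · simp)

lemma comul_apply (x : FH k ι) : Coalgebra.comul (R := k) x = comulHom x := rfl

lemma counit_apply (x : FH k ι) : Coalgebra.counit (R := k) x = counitHom x := rfl

lemma antipode_left (x : FH k ι) :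
    LinearMap.mul' k (FH k ι) ((anti (k := k) (ι := ι)).rTensor (FH k ι) (comulHom x)) =
      algebraMap k _ (counitHom x) := by
  induction x using ind with
  | h0 c =>
    rw [AlgHom.commutes, AlgHom.commutes, Algebra.TensorProduct.algebraMap_apply]
    simp [anti_algebraMap]
  | hg r i j =>
    simp only [comulHom_g, map_sum, LinearMap.rTensor_tmul, anti_g, LinearMap.mul'_apply,
      counitHom_g]
    rw [g_right]
    split_ifs <;> simp
  | ha a b ha hb => simp only [map_add, ha, hb]
  | hm a b ha hb =>
    have key : ∀ u : FH k ι ⊗[k] FH k ι,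
        LinearMap.mul' k (FH k ι) ((anti (k := k) (ι := ι)).rTensor (FH k ι) (comulHom a * u)) =
        counitHom a • LinearMap.mul' k (FH k ι) ((anti (k := k) (ι := ι)).rTensor (FH k ι) u) := by
      intro u
      induction u using TensorProduct.induction_on with
      | zero => simp
      | add u v hu hv => rw [mul_add, map_add, map_add, hu, hv, map_add, map_add, smul_add]
      | tmul c d =>
        have h2 : ∀ t : FH k ι ⊗[k] FH k ι,
            LinearMap.mul' k (FH k ι) ((anti (k := k) (ι := ι)).rTensor (FH k ι) (t * (c ⊗ₜ d))) =
            anti c * LinearMap.mul' k (FH k ι) ((anti (k := k) (ι := ι)).rTensor (FH k ι) t) * d := by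
          intro t
          induction t using TensorProduct.induction_on with
          | zero => simp
          | add u v hu hv => rw [add_mul, map_add, map_add, hu, hv, map_add, map_add, mul_add, add_mul]
          | tmul e f =>
            simp only [Algebra.TensorProduct.tmul_mul_tmul, LinearMap.rTensor_tmul, anti_mul,
              LinearMap.mul'_apply, mul_assoc]
        rw [h2, ha, LinearMap.rTensor_tmul, LinearMap.mul'_apply, Algebra.smul_def,
          ← mul_assoc, Algebra.commutes]
    rw [map_mul, key, hb, map_mul, map_mul, Algebra.smul_def]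

lemma antipode_right (x : FH k ι) :
    LinearMap.mul' k (FH k ι) ((anti (k := k) (ι := ι)).lTensor (FH k ι) (comulHom x)) =
      algebraMap k _ (counitHom x) := by
  induction x using ind with
  | h0 c =>
    rw [AlgHom.commutes, AlgHom.commutes, Algebra.TensorProduct.algebraMap_apply]
    simp
    rw [anti_apply]
    simp
  | hg r i j =>
    simp only [comulHom_g, map_sum, LinearMap.lTensor_tmul, anti_g, LinearMap.mul'_apply,
      counitHom_g]
    rw [g_left]
    split_ifs <;> simp
  | ha a b ha hb => simp only [map_add, ha, hb]
  | hm a b ha hb =>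
    have key : ∀ u : FH k ι ⊗[k] FH k ι,
        LinearMap.mul' k (FH k ι) ((anti (k := k) (ι := ι)).lTensor (FH k ι) (u * comulHom b)) =
        counitHom b • LinearMap.mul' k (FH k ι) ((anti (k := k) (ι := ι)).lTensor (FH k ι) u) := by
      intro u
      induction u using TensorProduct.induction_on with
      | zero => simp
      | add u v hu hv => rw [add_mul, map_add, map_add, hu, hv, map_add, map_add, smul_add]
      | tmul c d =>
        have h2 : ∀ t : FH k ι ⊗[k] FH k ι,
            LinearMap.mul' k (FH k ι) ((anti (k := k) (ι := ι)).lTensor (FH k ι) ((c ⊗ₜ d) * t)) =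
            c * LinearMap.mul' k (FH k ι) ((anti (k := k) (ι := ι)).lTensor (FH k ι) t) * anti d := by
          intro t
          induction t using TensorProduct.induction_on with
          | zero => simp
          | add u v hu hv => rw [mul_add, map_add, map_add, hu, hv, map_add, map_add, mul_add, add_mul]
          | tmul e f =>
            simp only [Algebra.TensorProduct.tmul_mul_tmul, LinearMap.lTensor_tmul, anti_mul,
              LinearMap.mul'_apply, mul_assoc]
        rw [h2, hb, LinearMap.lTensor_tmul, LinearMap.mul'_apply, Algebra.smul_def,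
          ← mul_assoc, Algebra.commutes]
    rw [map_mul, key, ha, map_mul, map_mul, Algebra.smul_def, Algebra.commutes]

noncomputable instance instHopf : HopfAlgebra k (FH k ι) where
  antipode := anti
  mul_antipode_rTensor_comul := by
    ext x
    exact antipode_left x
  mul_antipode_lTensor_comul := by
    ext x
    exact antipode_right x

/-! ### Module algebras -/

section Act

variable {R : Type} [Ring R] [Algebra k R] (T : ℕ → ι → ι → (R →ₗ[k] R))
  (h1 : ∀ r i j, ∑ l, T r i l * T (r + 1) j l = if i = j then 1 else 0)
  (h2 : ∀ r i j, ∑ l, T (r + 1) l i * T r l j = if i = j then 1 else 0)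

/-- The action on R determined by a compatible family of operators. -/
noncomputable def act : FH k ι →ₐ[k] Module.End k R := lift T h1 h2

/-- The corresponding module structure. -/
@[reducible] noncomputable def actModule : Module (FH k ι) R :=
  Module.compHom R (act T h1 h2).toRingHom

lemma act_tower : @IsScalarTower k (FH k ι) R _ (actModule T h1 h2).toSMul _ :=
  @IsScalarTower.mk _ _ _ _ (actModule T h1 h2).toSMul _ (by
    intro c x a
    change (act T h1 h2 (c • x)) a = c • (act T h1 h2 x) a
    rw [map_smul]
    rfl)

include h1 h2 in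
lemma act_mul (hmul : ∀ r i j a b, T r i j (a * b) = ∑ l, T r i l a * T r l j b)
    (x : FH k ι) : ∀ a b : R, act T h1 h2 x (a * b) =
      LinearMap.mul' k R (TensorProduct.map
        (LinearMap.applyₗ a ∘ₗ (act T h1 h2).toLinearMap)
        (LinearMap.applyₗ b ∘ₗ (act T h1 h2).toLinearMap) (comulHom x)) := by
  induction x using ind with
  | h0 c =>
    intro a b
    rw [AlgHom.commutes, AlgHom.commutes, Algebra.TensorProduct.algebraMap_apply]
    simp
  | hg r i j =>
    intro a b
    simp only [comulHom_g, map_sum, TensorProduct.map_tmul, LinearMap.mul'_apply,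
      LinearMap.comp_apply, LinearMap.applyₗ_apply_apply, AlgHom.toLinearMap_apply, act, lift_g]
    exact hmul r i j a b
  | ha x y hx hy =>
    intro a b
    simp only [map_add, LinearMap.add_apply, hx, hy]
  | hm x y hx hy =>
    intro a b
    have key : ∀ u : FH k ι ⊗[k] FH k ι,
        act T h1 h2 x (LinearMap.mul' k R (TensorProduct.map
          (LinearMap.applyₗ a ∘ₗ (act T h1 h2).toLinearMap)
          (LinearMap.applyₗ b ∘ₗ (act T h1 h2).toLinearMap) u)) =
        LinearMap.mul' k R (TensorProduct.map
          (LinearMap.applyₗ a ∘ₗ (act T h1 h2).toLinearMap)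
          (LinearMap.applyₗ b ∘ₗ (act T h1 h2).toLinearMap) (comulHom x * u)) := by
      intro u
      induction u using TensorProduct.induction_on with
      | zero => simp
      | add u v hu hv => simp only [map_add, mul_add, hu, hv]
      | tmul c d =>
        rw [TensorProduct.map_tmul, LinearMap.mul'_apply, hx]
        generalize comulHom x = t
        induction t using TensorProduct.induction_on with
        | zero => simp
        | add u v hu hv => simp only [map_add, add_mul, hu, hv]
        | tmul e f =>
          simp only [Algebra.TensorProduct.tmul_mul_tmul, TensorProduct.map_tmul,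
            LinearMap.mul'_apply, LinearMap.comp_apply, LinearMap.applyₗ_apply_apply,
            AlgHom.toLinearMap_apply, map_mul, Module.End.mul_apply]
    rw [map_mul (act T h1 h2), Module.End.mul_apply, hy, key, map_mul comulHom]

include h1 h2 in
lemma act_one (hone : ∀ r i j, T r i j 1 = if i = j then 1 else 0) (x : FH k ι) :
    act T h1 h2 x 1 = algebraMap k R (counitHom x) := by
  induction x using ind with
  | h0 c =>
    rw [AlgHom.commutes, AlgHom.commutes]
    simp [Algebra.algebraMap_eq_smul_one]
  | hg r i j =>
    simp only [act, lift_g, hone, counitHom_g]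
    split_ifs <;> simp
  | ha x y hx hy => simp only [map_add, LinearMap.add_apply, hx, hy]
  | hm x y hx hy =>
    rw [map_mul (act T h1 h2), Module.End.mul_apply, hy, Algebra.algebraMap_eq_smul_one, map_smul,
      hx, map_mul counitHom, map_mul, Algebra.smul_def, Algebra.commutes]

end Act

end Pool.Agent.Helper30.FreeHopf
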