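import Mathlib

set_option autoImplicit false
set_option linter.unusedSimpArgs false

/-! Sequences of matrices in which each one is the inverse of the transpose of the next. -/

namespace Pool.Agent.Helper30.HopfSeq

open Matrix

/-- M' is the transpose of the inverse of M. -/
def Nxt {n : Type} [Fintype n] [DecidableEq n] {E : Type} [Ring E] (M M' : Matrix n n E) : Prop :=
  M * M'ᵀ = 1 ∧ M'ᵀ * M = 1

/-- A set of matrices in which the inverse transpose can be iterated for ever. -/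
def Cl {n : Type} [Fintype n] [DecidableEq n] {E : Type} [Ring E] (P : Set (Matrix n n E)) : Prop :=
  ∀ M ∈ P, ∃ M' ∈ P, Nxt M M'

lemma exists_seq {n : Type} [Fintype n] [DecidableEq n] {E : Type} [Ring E]
    {P : Set (Matrix n n E)} (hP : Cl P) {M : Matrix n n E} (hM : M ∈ P) :
    ∃ G : ℕ → Matrix n n E, G 0 = M ∧ (∀ r, G r ∈ P) ∧ ∀ r, Nxt (G r) (G (r + 1)) := by
  choose! f hf1 hf2 using hP
  have h : ∀ r, f^[r] M ∈ P := by
    intro r
    induction r with
    | zero => exact hM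
    | succ r ih => rw [Function.iterate_succ_apply']; exact hf1 _ ih
  refine ⟨fun r => f^[r] M, rfl, h, ?_⟩
  · intro r
    change Nxt (f^[r] M) (f^[r + 1] M)
    rw [Function.iterate_succ_apply']
    exact hf2 _ (h r)

section Weyl

variable {E : Type} [Ring E] {x y z : E}

/-- First type. -/
def Bm (x y f w : E) : Matrix (Fin 2) (Fin 2) E := !![f, f * x; f * y, f * (y * x + w)]
/-- Second type. -/
def Cm (x y f w : E) : Matrix (Fin 2) (Fin 2) E := !![f * (w + x * y), -(f * y); -(f * x), f]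

lemma nxt_BC {f g w : E} (hxy : x * y = y * x + 1) (hfx : x * f = f * x) (hfy : y * f = f * y)
    (hgx : x * g = g * x) (hgy : y * g = g * y) (hwx : x * w = w * x) (hwy : y * w = w * y)
    (hgf : g * f = f * g) (hwf : w * f = f * w) (hwg : w * g = g * w) (h1 : f * (g * w) = 1) :
    Nxt (Bm x y f w) (Cm x y g w) := by
  have hxy' : ∀ t, x * (y * t) = y * (x * t) + t := fun t => by
    rw [← mul_assoc, hxy, add_mul, one_mul, mul_assoc]
  have hfx' : ∀ t, x * (f * t) = f * (x * t) := fun t => by rw [← mul_assoc, hfx, mul_assoc]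
  have hfy' : ∀ t, y * (f * t) = f * (y * t) := fun t => by rw [← mul_assoc, hfy, mul_assoc]
  have hgx' : ∀ t, x * (g * t) = g * (x * t) := fun t => by rw [← mul_assoc, hgx, mul_assoc]
  have hgy' : ∀ t, y * (g * t) = g * (y * t) := fun t => by rw [← mul_assoc, hgy, mul_assoc]
  have hwx' : ∀ t, x * (w * t) = w * (x * t) := fun t => by rw [← mul_assoc, hwx, mul_assoc]
  have hwy' : ∀ t, y * (w * t) = w * (y * t) := fun t => by rw [← mul_assoc, hwy, mul_assoc]
  have hgf' : ∀ t, g * (f * t) = f * (g * t) := fun t => by rw [← mul_assoc, hgf, mul_assoc]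
  have hwf' : ∀ t, w * (f * t) = f * (w * t) := fun t => by rw [← mul_assoc, hwf, mul_assoc]
  have hwg' : ∀ t, w * (g * t) = g * (w * t) := fun t => by rw [← mul_assoc, hwg, mul_assoc]
  have h1' : ∀ t, f * (g * (w * t)) = t := fun t => by
    rw [← mul_assoc g, ← mul_assoc f, h1, one_mul]
  constructor
  · ext i j
    fin_cases i <;> fin_cases j <;>
    simp [Bm, Cm, Matrix.mul_apply, Fin.sum_univ_two, mul_add, add_mul, mul_assoc, hxy, hxy', hfx,
      hfy, hgx, hgy, hwx, hwy, hgf, hwf, hwg, hfx', hfy', hgx', hgy', hwx', hwy', hgf', hwf', hwg',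
      h1, h1']
    all_goals try abel
  · ext i j
    fin_cases i <;> fin_cases j <;>
    simp [Bm, Cm, Matrix.mul_apply, Fin.sum_univ_two, mul_add, add_mul, mul_assoc, hxy, hxy', hfx,
      hfy, hgx, hgy, hwx, hwy, hgf, hwf, hwg, hfx', hfy', hgx', hgy', hwx', hwy', hgf', hwf', hwg',
      h1, h1']
    all_goals try abel

lemma nxt_CB {f g w : E} (hxy : x * y = y * x + 1) (hfx : x * f = f * x) (hfy : y * f = f * y)
    (hgx : x * g = g * x) (hgy : y * g = g * y) (hwx : x * w = w * x) (hwy : y * w = w * y)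
    (hgf : g * f = f * g) (hwf : w * f = f * w) (hwg : w * g = g * w)
    (h1 : f * (g * (w + 1)) = 1) :
    Nxt (Cm x y f w) (Bm x y g (w + 2)) := by
  have hxy' : ∀ t, x * (y * t) = y * (x * t) + t := fun t => by
    rw [← mul_assoc, hxy, add_mul, one_mul, mul_assoc]
  have hfx' : ∀ t, x * (f * t) = f * (x * t) := fun t => by rw [← mul_assoc, hfx, mul_assoc]
  have hfy' : ∀ t, y * (f * t) = f * (y * t) := fun t => by rw [← mul_assoc, hfy, mul_assoc]
  have hgx' : ∀ t, x * (g * t) = g * (x * t) := fun t => by rw [← mul_assoc, hgx, mul_assoc]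
  have hgy' : ∀ t, y * (g * t) = g * (y * t) := fun t => by rw [← mul_assoc, hgy, mul_assoc]
  have hwx' : ∀ t, x * (w * t) = w * (x * t) := fun t => by rw [← mul_assoc, hwx, mul_assoc]
  have hwy' : ∀ t, y * (w * t) = w * (y * t) := fun t => by rw [← mul_assoc, hwy, mul_assoc]
  have hgf' : ∀ t, g * (f * t) = f * (g * t) := fun t => by rw [← mul_assoc, hgf, mul_assoc]
  have hwf' : ∀ t, w * (f * t) = f * (w * t) := fun t => by rw [← mul_assoc, hwf, mul_assoc]
  have hwg' : ∀ t, w * (g * t) = g * (w * t) := fun t => by rw [← mul_assoc, hwg, mul_assoc]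
  have h2 : f * (g * w) = 1 - f * g := by
    rw [← h1]; noncomm_ring
  have h2' : ∀ t, f * (g * (w * t)) = t - f * (g * t) := fun t => by
    rw [← mul_assoc g, ← mul_assoc f, h2, sub_mul, one_mul, mul_assoc]
  constructor
  · ext i j
    fin_cases i <;> fin_cases j <;>
    simp [Bm, Cm, Matrix.mul_apply, Fin.sum_univ_two, mul_add, add_mul, mul_assoc, hxy, hxy', hfx,
      hfy, hgx, hgy, hwx, hwy, hgf, hwf, hwg, hfx', hfy', hgx', hgy', hwx', hwy', hgf', hwf', hwg',
      h2, h2', mul_two, two_mul]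
    all_goals try abel
  · ext i j
    fin_cases i <;> fin_cases j <;>
    simp [Bm, Cm, Matrix.mul_apply, Fin.sum_univ_two, mul_add, add_mul, mul_assoc, hxy, hxy', hfx,
      hfy, hgx, hgy, hwx, hwy, hgf, hwf, hwg, hfx', hfy', hgx', hgy', hwx', hwy', hgf', hwf', hwg',
      h2, h2', mul_two, two_mul]
    all_goals try abel

/-- All the 2 by 2 matrices that occur. -/
def PB (x y z : E) : Set (Matrix (Fin 2) (Fin 2) E) :=
  {M | ∃ (f : Eˣ) (m : ℕ), Commute x (f : E) ∧ Commute y (f : E) ∧ Commute z (f : E) ∧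
    (M = Bm x y f (z + (m + 1 : ℕ)) ∨ M = Cm x y f (z + (m + 1 : ℕ)))}

lemma cl_PB (hxy : x * y = y * x + 1) (hxz : Commute x z) (hyz : Commute y z)
    (hinv : ∀ m : ℕ, IsUnit (z + (m + 1 : ℕ))) : Cl (PB x y z) := by
  rintro M ⟨f, m, hxf, hyf, hzf, hM⟩
  have hcx : ∀ n : ℕ, Commute x (z + (n : E)) := fun n => hxz.add_right (Nat.commute_cast x n)
  have hcy : ∀ n : ℕ, Commute y (z + (n : E)) := fun n => hyz.add_right (Nat.commute_cast y n)
  have hcf : ∀ n : ℕ, Commute (f : E) (z + (n : E)) := fun n =>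
    hzf.symm.add_right (Nat.commute_cast _ n)
  have hcz : ∀ n : ℕ, Commute z (z + (n : E)) := fun n =>
    (Commute.refl z).add_right (Nat.commute_cast _ n)
  obtain ⟨u, hu⟩ := hinv m
  obtain ⟨u', hu'⟩ := hinv (m + 1)
  have hxf' : Commute x ((f⁻¹ : Eˣ) : E) := hxf.units_inv_right
  have hyf' : Commute y ((f⁻¹ : Eˣ) : E) := hyf.units_inv_right
  have hzf' : Commute z ((f⁻¹ : Eˣ) : E) := hzf.units_inv_right
  have hfx : Commute x ((u⁻¹ : Eˣ) : E) := by
    apply Commute.units_inv_right; rw [hu]; exact hcx _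
  have hfy : Commute y ((u⁻¹ : Eˣ) : E) := by
    apply Commute.units_inv_right; rw [hu]; exact hcy _
  have hfz : Commute z ((u⁻¹ : Eˣ) : E) := by
    apply Commute.units_inv_right; rw [hu]; exact hcz _
  have hff : Commute (f : E) ((u⁻¹ : Eˣ) : E) := by
    apply Commute.units_inv_right; rw [hu]; exact hcf _
  have hfx' : Commute x ((u'⁻¹ : Eˣ) : E) := by
    apply Commute.units_inv_right; rw [hu']; exact hcx _
  have hfy' : Commute y ((u'⁻¹ : Eˣ) : E) := by
    apply Commute.units_inv_right; rw [hu']; exact hcy _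
  have hfz' : Commute z ((u'⁻¹ : Eˣ) : E) := by
    apply Commute.units_inv_right; rw [hu']; exact hcz _
  have hff' : Commute (f : E) ((u'⁻¹ : Eˣ) : E) := by
    apply Commute.units_inv_right; rw [hu']; exact hcf _
  rcases hM with rfl | rfl
  · refine ⟨Cm x y ((u⁻¹ * f⁻¹ : Eˣ) : E) (z + (m + 1 : ℕ)), ⟨u⁻¹ * f⁻¹, m, ?_, ?_, ?_, Or.inr rfl⟩, ?_⟩
    · rw [Units.val_mul]; exact hfx.mul_right hxf'
    · rw [Units.val_mul]; exact hfy.mul_right hyf'
    · rw [Units.val_mul]; exact hfz.mul_right hzf'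
    · rw [Units.val_mul]
      have hgw : Commute (z + ((m + 1 : ℕ) : E)) (((u⁻¹ : Eˣ) : E) * ((f⁻¹ : Eˣ) : E)) :=
        (hfz.mul_right hzf').add_left (Nat.cast_commute _ _)
      refine nxt_BC hxy hxf hyf (hfx.mul_right hxf') (hfy.mul_right hyf') (hcx _) (hcy _)
        ?_ (hcf _).symm hgw ?_
      · exact (hff.mul_right (by
          rw [← Units.val_mul] at *
          exact (Commute.refl (f : E)).units_inv_right)).symm
      · rw [← hgw.eq, ← hu, ← mul_assoc (u : E), Units.mul_inv, one_mul, Units.mul_inv]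
  · refine ⟨Bm x y ((u'⁻¹ * f⁻¹ : Eˣ) : E) (z + (m + 2 + 1 : ℕ)),
      ⟨u'⁻¹ * f⁻¹, m + 2, ?_, ?_, ?_, Or.inl rfl⟩, ?_⟩
    · rw [Units.val_mul]; exact hfx'.mul_right hxf'
    · rw [Units.val_mul]; exact hfy'.mul_right hyf'
    · rw [Units.val_mul]; exact hfz'.mul_right hzf'
    · rw [Units.val_mul]
      have hgw : ∀ n : ℕ, Commute (z + (n : E)) (((u'⁻¹ : Eˣ) : E) * ((f⁻¹ : Eˣ) : E)) := fun n =>
        (hfz'.mul_right hzf').add_left (Nat.cast_commute _ _)
      have e1 : z + ((m + 2 + 1 : ℕ) : E) = z + ((m + 1 : ℕ) : E) + 2 := by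
        push_cast
        rw [show (2 : E) = 1 + 1 by norm_num]
        abel
      have e2 : z + ((m + 1 : ℕ) : E) + 1 = z + ((m + 1 + 1 : ℕ) : E) := by
        push_cast
        abel
      rw [e1]
      refine nxt_CB hxy hxf hyf (hfx'.mul_right hxf') (hfy'.mul_right hyf') (hcx _) (hcy _)
        ?_ (hcf _).symm (hgw _) ?_
      · exact (hff'.mul_right (Commute.refl (f : E)).units_inv_right).symm
      · rw [e2, ← (hgw _).eq, ← hu', ← mul_assoc (u' : E), Units.mul_inv, one_mul, Units.mul_inv]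

end Weyl

section Blocks

variable {n : Type} [Fintype n] [DecidableEq n] {E : Type} [Ring E]

/-- The 4 by 4 matrices on the quotient. -/
def PL (P : Set (Matrix n n E)) : Set (Matrix (n ⊕ n) (n ⊕ n) E) :=
  {M | ∃ B ∈ P, ∃ D, M = fromBlocks 0 1 B D ∨ M = fromBlocks D 1 B 0}

lemma cl_PL {P : Set (Matrix n n E)} (hP : Cl P) : Cl (PL P) := by
  rintro M ⟨B, hB, D, hM⟩
  obtain ⟨B', hB', h1, h2⟩ := hP B hB
  rcases hM with rfl | rfl
  · refine ⟨fromBlocks (-(B'ᵀ * D))ᵀ 1 B' 0, ⟨B', hB', _, Or.inr rfl⟩, ?_, ?_⟩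
    · rw [fromBlocks_transpose, fromBlocks_multiply]
      simp [h1, ← mul_assoc]
    · rw [fromBlocks_transpose, fromBlocks_multiply]
      simp [h2]
  · refine ⟨fromBlocks 0 1 B' (-(D * B'ᵀ))ᵀ, ⟨B', hB', _, Or.inl rfl⟩, ?_, ?_⟩
    · rw [fromBlocks_transpose, fromBlocks_multiply]
      simp [h1]
    · rw [fromBlocks_transpose, fromBlocks_multiply]
      simp [h2, mul_assoc]

/-- The 4 by 4 matrices on the subspace. -/
def PD (P : Set (Matrix n n E)) : Set (Matrix (n ⊕ n) (n ⊕ n) E) :=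
  {M | ∃ B ∈ P, M = fromBlocks B 0 0 1}

lemma cl_PD {P : Set (Matrix n n E)} (hP : Cl P) : Cl (PD P) := by
  rintro M ⟨B, hB, rfl⟩
  obtain ⟨B', hB', h1, h2⟩ := hP B hB
  refine ⟨fromBlocks B' 0 0 1, ⟨B', hB', rfl⟩, ?_, ?_⟩
  · rw [fromBlocks_transpose, fromBlocks_multiply]
    simp [h1]
  · rw [fromBlocks_transpose, fromBlocks_multiply]
    simp [h2]

end Blocks

section Tri

variable {k : Type} [Field k] {V W : Type} [AddCommGroup V] [Module k V] [AddCommGroup W]
  [Module k W]

/-- Upper triangular operators on V × W. -/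
def tri (a : Module.End k V) (e : W →ₗ[k] V) (d : Module.End k W) : Module.End k (V × W) :=
  (a ∘ₗ LinearMap.fst k V W + e ∘ₗ LinearMap.snd k V W).prod (d ∘ₗ LinearMap.snd k V W)

@[simp] lemma tri_apply (a : Module.End k V) (e : W →ₗ[k] V) (d : Module.End k W) (v : V × W) :
    tri a e d v = (a v.1 + e v.2, d v.2) := rfl

lemma tri_mul (a a' : Module.End k V) (e e' : W →ₗ[k] V) (d d' : Module.End k W) :
    tri a e d * tri a' e' d' = tri (a * a') (a ∘ₗ e' + e ∘ₗ d') (d * d') := by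
  apply LinearMap.ext
  intro v
  simp [add_assoc]

lemma tri_sum {ι : Type} (s : Finset ι) (a : ι → Module.End k V) (e : ι → W →ₗ[k] V)
    (d : ι → Module.End k W) :
    ∑ i ∈ s, tri (a i) (e i) (d i) = tri (∑ i ∈ s, a i) (∑ i ∈ s, e i) (∑ i ∈ s, d i) := by
  apply LinearMap.ext
  intro v
  rw [LinearMap.sum_apply]
  simp only [tri_apply, LinearMap.sum_apply, Prod.ext_iff, Prod.fst_sum, Prod.snd_sum]
  exact ⟨Finset.sum_add_distrib, trivial⟩

variable {n : Type} [Fintype n] [DecidableEq n]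

lemma nxt_iff {E : Type} [Ring E] {M M' : Matrix n n E} : Nxt M M' ↔
    (∀ i j, ∑ l, M i l * M' j l = if i = j then 1 else 0) ∧
    (∀ i j, ∑ l, M' l i * M l j = if i = j then 1 else 0) := by
  unfold Nxt
  rw [← Matrix.ext_iff, ← Matrix.ext_iff]
  simp only [Matrix.mul_apply, Matrix.transpose_apply, Matrix.one_apply]

/-- Triangular matrices with diagonal parts in given sets. -/
def PT (P : Set (Matrix n n (Module.End k V))) (P' : Set (Matrix n n (Module.End k W))) :
    Set (Matrix n n (Module.End k (V × W))) :=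
  {M | ∃ Q ∈ P, ∃ Q' ∈ P', ∃ e : n → n → W →ₗ[k] V, ∀ i j, M i j = tri (Q i j) (e i j) (Q' i j)}

lemma cl_PT {P : Set (Matrix n n (Module.End k V))} {P' : Set (Matrix n n (Module.End k W))}
    (hP : Cl P) (hP' : Cl P') : Cl (PT P P') := by
  rintro M ⟨Q, hQ, R, hR, e, hM⟩
  obtain ⟨Q', hQ', h12⟩ := hP Q hQ
  obtain ⟨R', hR', h34⟩ := hP' R hR
  rw [nxt_iff] at h12 h34
  obtain ⟨h1, h2⟩ := h12
  obtain ⟨h3, h4⟩ := h34
  refine ⟨Matrix.of fun i j => tri (Q' i j) (- ∑ l, ∑ m, Q' l j ∘ₗ e l m ∘ₗ R' i m) (R' i j),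
    ⟨Q', hQ', R', hR', _, fun i j => rfl⟩, ?_⟩
  have h1' : ∀ i a v, ∑ l, Q i l (Q' a l v) = if i = a then v else 0 := by
    intro i a v
    have := LinearMap.congr_fun (h1 i a) v
    simp only [LinearMap.sum_apply, Module.End.mul_apply] at this
    rw [this]
    split_ifs <;> rfl
  have h2' : ∀ i a v, ∑ l, Q' l i (Q l a v) = if i = a then v else 0 := by
    intro i a v
    have := LinearMap.congr_fun (h2 i a) v
    simp only [LinearMap.sum_apply, Module.End.mul_apply] at this
    rw [this]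
    split_ifs <;> rfl
  have h4' : ∀ i a v, ∑ l, R' l i (R l a v) = if i = a then v else 0 := by
    intro i a v
    have := LinearMap.congr_fun (h4 i a) v
    simp only [LinearMap.sum_apply, Module.End.mul_apply] at this
    rw [this]
    split_ifs <;> rfl
  have htri : ∀ i j : n, tri (if i = j then (1 : Module.End k V) else 0) 0
      (if i = j then (1 : Module.End k W) else 0) = if i = j then 1 else 0 := by
    intro i j
    apply LinearMap.ext
    intro v
    split_ifs <;> simp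
  rw [nxt_iff]
  simp only [hM, Matrix.of_apply, tri_mul]
  constructor
  · intro i j
    rw [tri_sum, h1, h3]
    have : ∑ l, (Q i l ∘ₗ (- ∑ a, ∑ b, Q' a l ∘ₗ e a b ∘ₗ R' j b) + e i l ∘ₗ R' j l) = 0 := by
      apply LinearMap.ext
      intro w
      simp only [LinearMap.sum_apply, LinearMap.add_apply, LinearMap.comp_apply,
        LinearMap.neg_apply, map_neg, map_sum, LinearMap.zero_apply]
      rw [Finset.sum_add_distrib, Finset.sum_neg_distrib, Finset.sum_comm]
      simp_rw [Finset.sum_comm (s := (Finset.univ : Finset n)) (t := (Finset.univ : Finset n))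
        (f := fun l b => Q i l (Q' _ l (e _ b (R' j b w))))]
      simp only [h1']
      simp
    rw [this, htri]
  · intro i j
    rw [tri_sum, h2, h4]
    have : ∑ l, (Q' l i ∘ₗ e l j + (- ∑ a, ∑ b, Q' a i ∘ₗ e a b ∘ₗ R' l b) ∘ₗ R l j) = 0 := by
      apply LinearMap.ext
      intro w
      simp only [LinearMap.sum_apply, LinearMap.add_apply, LinearMap.comp_apply,
        LinearMap.neg_apply, map_neg, map_sum, LinearMap.zero_apply]
      rw [Finset.sum_add_distrib, Finset.sum_neg_distrib, Finset.sum_comm]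
      simp_rw [Finset.sum_comm (s := (Finset.univ : Finset n)) (t := (Finset.univ : Finset n))
        (f := fun l b => Q' _ i (e _ b (R' l b (R l j w))))]
      simp only [← map_sum, h4']
      simp [apply_ite]
    rw [this, htri]

end Tri

end Pool.Agent.Helper30.HopfSeq
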