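import Pool.Agent.Helper30.FreeHopf
import Pool.Agent.Helper30.HopfSeq

set_option autoImplicit false
set_option linter.unusedSimpArgs false

namespace Pool.Agent.Helper30.HopfAlg

open FreeHopf HopfSeq Matrix

variable (k : Type) [Field k] (V0 W : Type) [AddCommGroup V0] [Module k V0] [AddCommGroup W]
  [Module k W] {n : Type} [Fintype n] [DecidableEq n]

/-- The algebra: operators acting by a scalar on the subspace V0. -/
noncomputable def R : Subalgebra k (Module.End k (V0 × W)) where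
  carrier := {a | ∃ c : k, ∀ f : V0, a (f, 0) = c • ((f, 0) : V0 × W)}
  mul_mem' := by
    rintro a b ⟨c, hc⟩ ⟨d, hd⟩
    refine ⟨c * d, fun f => ?_⟩
    rw [Module.End.mul_apply, hd, map_smul, hc, smul_smul, mul_comm]
  add_mem' := by
    rintro a b ⟨c, hc⟩ ⟨d, hd⟩
    refine ⟨c + d, fun f => ?_⟩
    rw [LinearMap.add_apply, hd, hc]
    exact (add_smul c d _).symm
  algebraMap_mem' := by
    intro c
    exact ⟨c, fun f => rfl⟩

lemma mem_R {a : Module.End k (V0 × W)} : a ∈ R k V0 W ↔ ∃ c : k, ∀ f : V0, a (f, 0) = c • ((f, 0) : V0 × W) :=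
  Iff.rfl

variable {k V0 W}

section Act

variable {G : ℕ → Matrix n n (Module.End k (V0 × W))} (hG : ∀ r, Nxt (G r) (G (r + 1)))
  (hV : ∀ r i j (f : V0), (G (r + 1) i j (f, 0)).2 = 0)

include hG in
lemma rel1 (r : ℕ) (i j : n) : ∑ l, G r i l * G (r + 1) j l = if i = j then 1 else 0 :=
  (nxt_iff.mp (hG r)).1 i j

include hG in
lemma rel2 (r : ℕ) (i j : n) : ∑ l, G (r + 1) l i * G r l j = if i = j then 1 else 0 :=
  (nxt_iff.mp (hG r)).2 i j

include hG hV in
lemma conj_mem (r : ℕ) (i j : n) (a : Module.End k (V0 × W)) (c : k)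
    (ha : ∀ f : V0, a (f, 0) = c • ((f, 0) : V0 × W)) (f : V0) :
    (∑ l, G r i l * a * G (r + 1) j l) (f, 0) = (if i = j then c else 0) • ((f, 0) : V0 × W) := by
  have h1 : ∀ l, a (G (r + 1) j l (f, 0)) = c • (G (r + 1) j l (f, 0)) := by
    intro l
    have h2 : (G (r + 1) j l (f, 0)) = ((G (r + 1) j l (f, 0)).1, 0) :=
      Prod.ext rfl (hV r j l f)
    rw [h2]
    exact ha _
  have h3 := LinearMap.congr_fun (rel1 hG r i j) (f, 0)
  rw [LinearMap.sum_apply] at h3 ⊢
  simp only [Module.End.mul_apply, h1, map_smul] at h3 ⊢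
  rw [← Finset.smul_sum, h3]
  split_ifs <;> simp

/-- The operators on R. -/
noncomputable def T (r : ℕ) (i j : n) : R k V0 W →ₗ[k] R k V0 W where
  toFun a := ⟨∑ l, G r i l * (a : Module.End k (V0 × W)) * G (r + 1) j l, by
    obtain ⟨c, hc⟩ := a.2
    exact ⟨_, conj_mem hG hV r i j a c hc⟩⟩
  map_add' a b := by
    apply Subtype.ext
    simp only [Subalgebra.coe_add, mul_add, add_mul, Finset.sum_add_distrib]
  map_smul' c a := by
    apply Subtype.ext
    simp only [Subalgebra.coe_smul, RingHom.id_apply, Finset.smul_sum, mul_smul_comm,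
      smul_mul_assoc]

lemma T_coe (r : ℕ) (i j : n) (a : R k V0 W) : ((T hG hV r i j a : R k V0 W) : Module.End k (V0 × W)) =
    ∑ l, G r i l * (a : Module.End k (V0 × W)) * G (r + 1) j l := rfl

lemma T_one (r : ℕ) (i j : n) : T hG hV r i j 1 = if i = j then 1 else 0 := by
  apply Subtype.ext
  rw [T_coe]
  simp only [Subalgebra.coe_one, mul_one]
  rw [rel1 hG]
  split_ifs <;> simp

lemma T_mul (r : ℕ) (i j : n) (a b : R k V0 W) :
    T hG hV r i j (a * b) = ∑ l, T hG hV r i l a * T hG hV r l j b := by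
  apply Subtype.ext
  rw [T_coe, AddSubmonoidClass.coe_finsetSum]
  simp only [Subalgebra.coe_mul, T_coe, Finset.sum_mul_sum]
  rw [Finset.sum_comm]
  refine Finset.sum_congr rfl fun p _ => ?_
  rw [Finset.sum_comm]
  have h : ∀ q, ∑ l, G r i p * (a : Module.End k (V0 × W)) * G (r + 1) l p *
      (G r l q * (b : Module.End k (V0 × W)) * G (r + 1) j q) =
      G r i p * (a : Module.End k (V0 × W)) * (if p = q then 1 else 0) *
      ((b : Module.End k (V0 × W)) * G (r + 1) j q) := by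
    intro q
    rw [← rel2 hG r p q, Finset.mul_sum, Finset.sum_mul]
    refine Finset.sum_congr rfl fun l _ => ?_
    simp only [mul_assoc]
  simp only [h]
  simp [mul_assoc]

lemma T_rel1 (r : ℕ) (i j : n) :
    ∑ l, T hG hV r i l * T hG hV (r + 1) j l = if i = j then 1 else 0 := by
  apply LinearMap.ext
  intro a
  apply Subtype.ext
  rw [LinearMap.sum_apply, AddSubmonoidClass.coe_finsetSum]
  simp only [Module.End.mul_apply, T_coe, Finset.mul_sum, Finset.sum_mul]
  rw [Finset.sum_comm]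
  have h : ∀ p, ∑ l, ∑ q, G r i p * (G (r + 1) j q * (a : Module.End k (V0 × W)) * G (r + 1 + 1) l q) *
      G (r + 1) l p = G r i p * G (r + 1) j p * a := by
    intro p
    rw [Finset.sum_comm]
    have h2 : ∀ q, ∑ l, G r i p * (G (r + 1) j q * (a : Module.End k (V0 × W)) * G (r + 1 + 1) l q) *
      G (r + 1) l p = G r i p * G (r + 1) j q * a * (if q = p then 1 else 0) := by
      intro q
      rw [← rel2 hG (r + 1) q p, Finset.mul_sum]
      refine Finset.sum_congr rfl fun l _ => ?_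
      simp only [mul_assoc]
    simp only [h2]
    simp
  simp only [h]
  rw [← Finset.sum_mul, rel1 hG]
  split_ifs <;> simp

lemma T_rel2 (r : ℕ) (i j : n) :
    ∑ l, T hG hV (r + 1) l i * T hG hV r l j = if i = j then 1 else 0 := by
  apply LinearMap.ext
  intro a
  apply Subtype.ext
  rw [LinearMap.sum_apply, AddSubmonoidClass.coe_finsetSum]
  simp only [Module.End.mul_apply, T_coe, Finset.mul_sum, Finset.sum_mul]
  rw [Finset.sum_comm]
  have h : ∀ p, ∑ l, ∑ q, G (r + 1) l p * (G r l q * (a : Module.End k (V0 × W)) * G (r + 1) j q) *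
      G (r + 1 + 1) i p = a * (G (r + 1) j p * G (r + 1 + 1) i p) := by
    intro p
    rw [Finset.sum_comm]
    have h2 : ∀ q, ∑ l, G (r + 1) l p * (G r l q * (a : Module.End k (V0 × W)) * G (r + 1) j q) *
      G (r + 1 + 1) i p = (if p = q then 1 else 0) * (a * (G (r + 1) j q * G (r + 1 + 1) i p)) := by
      intro q
      rw [← rel2 hG r p q, Finset.sum_mul]
      refine Finset.sum_congr rfl fun l _ => ?_
      simp only [mul_assoc]
    simp only [h2]
    simp
  simp only [h]
  rw [← Finset.mul_sum, rel1 hG]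
  by_cases hij : i = j
  · simp [hij]
  · simp [hij, Ne.symm hij]

/-- The diagonal entry acts by scalars. -/
lemma T_scalar (i0 : n) (J : n → Prop) (h0 : ∀ j, J j → G 0 i0 j = 0)
    (h1 : ∀ j, ¬ J j → ∀ v : V0 × W, (G 1 i0 j v).2 = 0) (a : R k V0 W) :
    ∃ c : k, T hG hV 0 i0 i0 a = algebraMap k (R k V0 W) c := by
  obtain ⟨c, hc⟩ := a.2
  refine ⟨c, ?_⟩
  apply Subtype.ext
  rw [T_coe]
  have h2 : ∀ l : n, G 0 i0 l * (a : Module.End k (V0 × W)) * G 1 i0 l =
      c • (G 0 i0 l * G 1 i0 l) := by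
    intro l
    by_cases hl : J l
    · rw [h0 l hl]
      simp
    · apply LinearMap.ext
      intro v
      rw [LinearMap.smul_apply, Module.End.mul_apply, Module.End.mul_apply, Module.End.mul_apply]
      have h3 : G 1 i0 l v = ((G 1 i0 l v).1, 0) := Prod.ext rfl (h1 l hl v)
      rw [h3, hc, map_smul]
  simp only [Nat.zero_add, h2]
  rw [← Finset.smul_sum]
  have h4 := rel1 hG 0 i0 i0
  rw [Nat.zero_add, if_pos rfl] at h4
  rw [h4]
  rfl

end Act

/-- R is not a PI algebra. -/
lemma R_not_pi (hemb : ∀ d : ℕ, ∃ (i : FreeAlgebra k (Fin d) →ₗ[k] W)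
    (q : W →ₗ[k] FreeAlgebra k (Fin d)), ∀ u, q (i u) = u) (d : ℕ) (p : FreeAlgebra k (Fin d)) (hp : ∀ v : Fin d → R k V0 W, FreeAlgebra.lift k v p = 0) :
    p = 0 := by
  obtain ⟨i, q, hq⟩ := hemb d
  let v : Fin d → R k V0 W := fun t =>
    ⟨LinearMap.inr k V0 W ∘ₗ i ∘ₗ LinearMap.mulLeft k (FreeAlgebra.ι k t) ∘ₗ q ∘ₗ
      LinearMap.snd k V0 W, ⟨0, fun f => by simp⟩⟩
  have key : ∀ (p : FreeAlgebra k (Fin d)) (u : FreeAlgebra k (Fin d)),
      ((FreeAlgebra.lift k v p : R k V0 W) : Module.End k (V0 × W)) (0, i u) = (0, i (p * u)) := by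
    intro p
    induction p using FreeAlgebra.induction with
    | grade0 c =>
      intro u
      rw [AlgHom.commutes]
      have : ((algebraMap k (R k V0 W) c : R k V0 W) : Module.End k (V0 × W)) = algebraMap k _ c := rfl
      rw [this, Module.algebraMap_end_apply, ← Algebra.smul_def, map_smul, Prod.smul_mk, smul_zero]
    | grade1 t =>
      intro u
      rw [FreeAlgebra.lift_ι_apply]
      simp [v, hq]
    | mul a b ha hb =>
      intro u
      rw [map_mul, Subalgebra.coe_mul, Module.End.mul_apply, hb, ha, mul_assoc]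
    | add a b ha hb =>
      intro u
      rw [map_add, Subalgebra.coe_add, LinearMap.add_apply, ha, hb, add_mul, map_add]
      simp
  have h1 := key p 1
  rw [hp v, mul_one] at h1
  have h2 : i p = 0 := by
    have := congrArg Prod.snd h1
    simpa using this.symm
  rw [← hq p, h2, map_zero]


/-! ### The algebra as a type -/

variable (k V0 W) in
/-- The algebra R as a type of its own. -/
def RT : Type := R k V0 W

noncomputable instance : Ring (RT k V0 W) := inferInstanceAs (Ring (R k V0 W))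
noncomputable instance : Algebra k (RT k V0 W) := inferInstanceAs (Algebra k (R k V0 W))

section ActT

variable {G : ℕ → Matrix n n (Module.End k (V0 × W))} (hG : ∀ r, Nxt (G r) (G (r + 1)))
  (hV : ∀ r i j (f : V0), (G (r + 1) i j (f, 0)).2 = 0)

/-- The operators. -/
noncomputable def TT (r : ℕ) (i j : n) : RT k V0 W →ₗ[k] RT k V0 W := T hG hV r i j

lemma TT_rel1 (r : ℕ) (i j : n) :
    ∑ l, TT hG hV r i l * TT hG hV (r + 1) j l = if i = j then 1 else 0 := T_rel1 hG hV r i j

lemma TT_rel2 (r : ℕ) (i j : n) :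
    ∑ l, TT hG hV (r + 1) l i * TT hG hV r l j = if i = j then 1 else 0 := T_rel2 hG hV r i j

lemma TT_one (r : ℕ) (i j : n) : TT hG hV r i j 1 = if i = j then 1 else 0 := T_one hG hV r i j

lemma TT_mul (r : ℕ) (i j : n) (a b : RT k V0 W) :
    TT hG hV r i j (a * b) = ∑ l, TT hG hV r i l a * TT hG hV r l j b := T_mul hG hV r i j a b

lemma TT_scalar (i0 : n) (J : n → Prop) (h0 : ∀ j, J j → G 0 i0 j = 0)
    (h1 : ∀ j, ¬ J j → ∀ v : V0 × W, (G 1 i0 j v).2 = 0) (a : RT k V0 W) :
    ∃ c : k, TT hG hV 0 i0 i0 a = algebraMap k (RT k V0 W) c := T_scalar hG hV i0 J h0 h1 a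

end ActT

lemma RT_not_pi (hemb : ∀ d : ℕ, ∃ (i : FreeAlgebra k (Fin d) →ₗ[k] W)
    (q : W →ₗ[k] FreeAlgebra k (Fin d)), ∀ u, q (i u) = u) (d : ℕ) (p : FreeAlgebra k (Fin d))
    (hp : ∀ v : Fin d → RT k V0 W, FreeAlgebra.lift k v p = 0) : p = 0 := R_not_pi hemb d p hp

lemma perm_univ : (Finset.univ : Finset (Equiv.Perm (Fin 2))) = {1, Equiv.swap 0 1} := by
  decide

/-- The main construction: such a sequence of matrices of operators contradicts the positive
statement. -/
theorem contra {G : ℕ → Matrix n n (Module.End k (V0 × W))} (hG : ∀ r, Nxt (G r) (G (r + 1)))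
    (hV : ∀ r i j (f : V0), (G (r + 1) i j (f, 0)).2 = 0)
    (i0 : n) (J : n → Prop) (h0 : ∀ j, J j → G 0 i0 j = 0)
    (h1 : ∀ j, ¬ J j → ∀ v : V0 × W, (G 1 i0 j v).2 = 0)
    (hemb : ∀ d : ℕ, ∃ (i : FreeAlgebra k (Fin d) →ₗ[k] W)
      (q : W →ₗ[k] FreeAlgebra k (Fin d)), ∀ u, q (i u) = u)
    (H : ∀ (k : Type) [Field k] (H : Type) [Ring H] [HopfAlgebra k H]
    (R : Type) [Ring R] [Algebra k R] [Module H R] [IsScalarTower k H R],
    (∀ (g : H) (a b : R), g • (a * b) =
        LinearMap.mul' k R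
          (TensorProduct.map ((LinearMap.toSpanSingleton H R a).restrictScalars k)
            ((LinearMap.toSpanSingleton H R b).restrictScalars k) (Coalgebra.comul g))) →
    (∀ g : H, g • (1 : R) = algebraMap k R (Coalgebra.counit g)) →
    ∀ (n m : ℕ) (a : Equiv.Perm (Fin n) → Fin m → Fin (n + 1) → R)
      (h : Equiv.Perm (Fin n) → Fin m → Fin n → H),
      (∀ x : Fin n → R, ∑ σ : Equiv.Perm (Fin n), ∑ j : Fin m,
          a σ j 0 * (List.ofFn (fun t : Fin n => (h σ j t • x (σ t)) * a σ j t.succ)).prod = 0) →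
      (1 : R) ∈ TwoSidedIdeal.span
          {y : R | ∃ (σ : Equiv.Perm (Fin n)) (x : Fin n → R), y = ∑ j : Fin m,
            a σ j 0 * (List.ofFn (fun t : Fin n => (h σ j t • x (σ t)) * a σ j t.succ)).prod} →
      ∃ d : ℕ, ∃ p : FreeAlgebra k (Fin d), p ≠ 0 ∧ ∀ v : Fin d → R, FreeAlgebra.lift k v p = 0) :
    False := by
  let md : Module (FH k n) (RT k V0 W) := actModule (TT hG hV) (TT_rel1 hG hV) (TT_rel2 hG hV)
  have hsm : ∀ (x : FH k n) (a : RT k V0 W),
      x • a = act (TT hG hV) (TT_rel1 hG hV) (TT_rel2 hG hV) x a := fun x a => rfl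
  have tw : IsScalarTower k (FH k n) (RT k V0 W) := act_tower _ _ _
  have hgen : ∀ a : RT k V0 W, g k 0 i0 i0 • a = TT hG hV 0 i0 i0 a := by
    intro a
    rw [hsm]
    unfold act
    rw [lift_g]
  have hc : ∀ a b : RT k V0 W, (g k 0 i0 i0 • a) * b = b * (g k 0 i0 i0 • a) := by
    intro a b
    obtain ⟨c, hc⟩ := TT_scalar hG hV i0 J h0 h1 a
    rw [hgen, hc]
    exact Algebra.commutes c b
  have hc1 : g k 0 i0 i0 • (1 : RT k V0 W) = 1 := by
    rw [hgen, TT_one, if_pos rfl]
  have hswap : (Equiv.swap (0 : Fin 2) 1) ≠ 1 := by decide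
  obtain ⟨d, p, hp0, hp⟩ := H k (FH k n) (RT k V0 W)
    (by
      intro x a b
      exact act_mul (TT hG hV) (TT_rel1 hG hV) (TT_rel2 hG hV) (TT_mul hG hV) x a b)
    (by
      intro x
      exact act_one (TT hG hV) (TT_rel1 hG hV) (TT_rel2 hG hV) (TT_one hG hV) x)
    2 1 (fun σ _ t => if t = 0 then (if σ = 1 then 1 else -1) else 1)
    (fun σ _ t => if σ t = 0 then g k 0 i0 i0 else 1)
    (by
      intro x
      rw [perm_univ, Finset.sum_pair hswap.symm]
      simp [List.ofFn_succ, hswap, hc])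
    (by
      apply TwoSidedIdeal.subset_span
      refine ⟨1, fun _ => 1, ?_⟩
      simp [List.ofFn_succ, hc1])
  exact hp0 (RT_not_pi hemb d p hp)

end Pool.Agent.Helper30.HopfAlg
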