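import Mathlib

set_option autoImplicit false

/-! The concrete spaces and operators. -/

namespace Pool.Agent.Helper30.HopfSpace

open Polynomial

abbrev U : Type := Polynomial ℚ
abbrev W : Type := ℕ →₀ U
abbrev V0 : Type := ℕ → W × W

noncomputable def xU : Module.End ℚ U := Polynomial.derivative
noncomputable def yU : Module.End ℚ U := LinearMap.mulLeft ℚ (X : U)

lemma xyU (p : U) : xU (yU p) = yU (xU p) + p := by
  simp [xU, yU, Polynomial.derivative_mul]
  ring

noncomputable def xW : Module.End ℚ W := Finsupp.mapRange.linearMap xU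
noncomputable def yW : Module.End ℚ W := Finsupp.mapRange.linearMap yU

lemma inj1 : Function.Injective (fun n : ℕ => 3 * n + 1) := fun a b h => by simpa using h
lemma inj0 : Function.Injective (fun n : ℕ => 3 * n) := fun a b h => by simpa using h
lemma inj2 : Function.Injective (fun n : ℕ => 3 * n + 2) := fun a b h => by simpa using h

noncomputable def zW : Module.End ℚ W := Finsupp.lcomapDomain (fun n : ℕ => 3 * n + 1) inj1
noncomputable def d1 : Module.End ℚ W := Finsupp.lcomapDomain (fun n : ℕ => 3 * n) inj0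
noncomputable def d2 : Module.End ℚ W := Finsupp.lcomapDomain (fun n : ℕ => 3 * n + 2) inj2

@[simp] lemma xW_apply (f : W) (n : ℕ) : xW f n = xU (f n) := by simp [xW]
@[simp] lemma yW_apply (f : W) (n : ℕ) : yW f n = yU (f n) := by simp [yW]
@[simp] lemma zW_apply (f : W) (n : ℕ) : zW f n = f (3 * n + 1) := rfl
@[simp] lemma d1_apply (f : W) (n : ℕ) : d1 f n = f (3 * n) := rfl
@[simp] lemma d2_apply (f : W) (n : ℕ) : d2 f n = f (3 * n + 2) := rfl

lemma xyW : xW * yW = yW * xW + 1 := by
  apply LinearMap.ext
  intro f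
  ext1 n
  simp [xyU]

lemma xzW : Commute xW zW := by
  apply LinearMap.ext
  intro f
  ext1 n
  simp

lemma yzW : Commute yW zW := by
  apply LinearMap.ext
  intro f
  ext1 n
  simp

lemma exists_glue (a b c : W) : ∃ f : W, zW f = a ∧ d1 f = b ∧ d2 f = c := by
  refine ⟨Finsupp.mapDomain (fun n : ℕ => 3 * n + 1) a + Finsupp.mapDomain (fun n : ℕ => 3 * n) b +
    Finsupp.mapDomain (fun n : ℕ => 3 * n + 2) c, ?_, ?_, ?_⟩
  · ext1 n
    simp only [zW_apply, Finsupp.add_apply]
    rw [Finsupp.mapDomain_apply inj1, Finsupp.mapDomain_of_notMem_range, Finsupp.mapDomain_of_notMem_range,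
      add_zero, add_zero]
    · rintro ⟨m, hm⟩; simp only at hm; omega
    · rintro ⟨m, hm⟩; simp only at hm; omega
  · ext1 n
    simp only [d1_apply, Finsupp.add_apply]
    rw [Finsupp.mapDomain_apply inj0, Finsupp.mapDomain_of_notMem_range, Finsupp.mapDomain_of_notMem_range,
      add_zero, zero_add]
    · rintro ⟨m, hm⟩; simp only at hm; omega
    · rintro ⟨m, hm⟩; simp only at hm; omega
  · ext1 n
    simp only [d2_apply, Finsupp.add_apply]
    rw [Finsupp.mapDomain_apply inj2, Finsupp.mapDomain_of_notMem_range, Finsupp.mapDomain_of_notMem_range,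
      zero_add, zero_add]
    · rintro ⟨m, hm⟩; simp only at hm; omega
    · rintro ⟨m, hm⟩; simp only at hm; omega

lemma glue_inj (f : W) (h0 : zW f = 0) (h1 : d1 f = 0) (h2 : d2 f = 0) : f = 0 := by
  ext1 n
  have h3 := Nat.div_add_mod n 3
  have h4 := Nat.mod_lt n (show 0 < 3 by norm_num)
  have e0 := DFunLike.congr_fun h0 (n / 3)
  have e1 := DFunLike.congr_fun h1 (n / 3)
  have e2 := DFunLike.congr_fun h2 (n / 3)
  simp only [zW_apply, d1_apply, d2_apply, Finsupp.coe_zero, Pi.zero_apply] at e0 e1 e2 ⊢
  interval_cases h : n % 3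
  · rwa [← h3, add_zero]
  · rwa [← h3]
  · rwa [← h3]

lemma unitW (m : ℕ) : IsUnit (zW + ((m + 1 : ℕ) : Module.End ℚ W)) := by
  have hm : ((m + 1 : ℕ) : ℚ) ≠ 0 := by positivity
  have hval : ∀ f : W, (zW + ((m + 1 : ℕ) : Module.End ℚ W)) f = zW f + ((m + 1 : ℕ) : ℚ) • f := by
    intro f
    rw [LinearMap.add_apply]
    congr 1
  rw [Module.End.isUnit_iff]
  constructor
  · rw [← LinearMap.ker_eq_bot, Submodule.eq_bot_iff]
    intro f hf
    rw [LinearMap.mem_ker, hval] at hf
    by_contra hne
    have hs : f.support.Nonempty := Finsupp.support_nonempty_iff.mpr hne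
    have h1 := DFunLike.congr_fun hf (f.support.max' hs)
    have h2 : f (3 * f.support.max' hs + 1) = 0 := by
      by_contra h3
      have := Finset.le_max' _ _ (Finsupp.mem_support_iff.mpr h3)
      omega
    rw [Finsupp.add_apply, zW_apply, h2, zero_add, Finsupp.smul_apply, Finsupp.coe_zero,
      Pi.zero_apply, smul_eq_zero] at h1
    rcases h1 with h1 | h1
    · exact hm h1
    · exact Finsupp.mem_support_iff.mp (Finset.max'_mem _ hs) h1
  · rw [← LinearMap.range_eq_top, eq_top_iff]
    have key : ∀ n : ℕ, ∀ u : U, Finsupp.single n u ∈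
        LinearMap.range (zW + ((m + 1 : ℕ) : Module.End ℚ W)) := by
      intro n
      induction n using Nat.strong_induction_on with
      | _ n ih =>
        intro u
        have h1 : (zW + ((m + 1 : ℕ) : Module.End ℚ W))
            (Finsupp.single n (((m + 1 : ℕ) : ℚ)⁻¹ • u)) =
            zW (Finsupp.single n (((m + 1 : ℕ) : ℚ)⁻¹ • u)) + Finsupp.single n u := by
          rw [hval, Finsupp.smul_single, smul_smul, mul_inv_cancel₀ hm, one_smul]
        have h2 : zW (Finsupp.single n (((m + 1 : ℕ) : ℚ)⁻¹ • u)) ∈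
            LinearMap.range (zW + ((m + 1 : ℕ) : Module.End ℚ W)) := by
          by_cases hn : ∃ j, n = 3 * j + 1
          · obtain ⟨j, rfl⟩ := hn
            have h3 : zW (Finsupp.single (3 * j + 1) (((m + 1 : ℕ) : ℚ)⁻¹ • u)) =
                Finsupp.single j (((m + 1 : ℕ) : ℚ)⁻¹ • u) := by
              ext1 i
              rw [zW_apply, Finsupp.single_apply, Finsupp.single_apply]
              congr 1
              simp
            rw [h3]
            exact ih j (by omega) _
          · have h3 : zW (Finsupp.single n (((m + 1 : ℕ) : ℚ)⁻¹ • u)) = 0 := by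
              ext1 i
              rw [zW_apply, Finsupp.single_apply, if_neg]
              · rfl
              · intro h; exact hn ⟨i, h⟩
            rw [h3]
            exact Submodule.zero_mem _
        have h4 : Finsupp.single n u = (zW + ((m + 1 : ℕ) : Module.End ℚ W))
            (Finsupp.single n (((m + 1 : ℕ) : ℚ)⁻¹ • u)) -
            zW (Finsupp.single n (((m + 1 : ℕ) : ℚ)⁻¹ • u)) := by
          rw [h1, add_sub_cancel_left]
        rw [h4]
        exact Submodule.sub_mem _ (LinearMap.mem_range_self _ _) h2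
    intro f _
    induction f using Finsupp.induction_linear with
    | zero => exact Submodule.zero_mem _
    | add f g hf hg => exact Submodule.add_mem _ (hf trivial) (hg trivial)
    | single n u => exact key n u

/-! Now the subspace. -/

noncomputable def x0 : Module.End ℚ V0 := (LinearMap.prodMap xW xW).compLeft ℕ
noncomputable def y0 : Module.End ℚ V0 := (LinearMap.prodMap yW yW).compLeft ℕ

noncomputable def z0 : Module.End ℚ V0 where
  toFun f := fun n => match n with
    | 0 => 0
    | m + 1 => f m
  map_add' f g := by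
    funext n
    cases n with
    | zero => simp
    | succ n => simp
  map_smul' c f := by
    funext n
    cases n with
    | zero => simp
    | succ n => simp

noncomputable def in0 : W × W →ₗ[ℚ] V0 where
  toFun f := fun n => match n with
    | 0 => f
    | _ + 1 => 0
  map_add' f g := by
    funext n
    cases n with
    | zero => simp
    | succ n => simp
  map_smul' c f := by
    funext n
    cases n with
    | zero => simp
    | succ n => simp

@[simp] lemma x0_apply (f : V0) (n : ℕ) : x0 f n = (xW (f n).1, xW (f n).2) := rfl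
@[simp] lemma y0_apply (f : V0) (n : ℕ) : y0 f n = (yW (f n).1, yW (f n).2) := rfl
@[simp] lemma z0_zero (f : V0) : z0 f 0 = 0 := rfl
@[simp] lemma z0_succ (f : V0) (n : ℕ) : z0 f (n + 1) = f n := rfl
@[simp] lemma in0_zero (f : W × W) : in0 f 0 = f := rfl
@[simp] lemma in0_succ (f : W × W) (n : ℕ) : in0 f (n + 1) = 0 := rfl

lemma xy0 : x0 * y0 = y0 * x0 + 1 := by
  apply LinearMap.ext
  intro f
  funext n
  have h : ∀ g : W, xW (yW g) = yW (xW g) + g := fun g => LinearMap.congr_fun xyW g
  simp [h, Prod.ext_iff]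

lemma xz0 : Commute x0 z0 := by
  apply LinearMap.ext
  intro f
  funext n
  cases n with
  | zero => simp [Prod.ext_iff]
  | succ n => simp

lemma yz0 : Commute y0 z0 := by
  apply LinearMap.ext
  intro f
  funext n
  cases n with
  | zero => simp [Prod.ext_iff]
  | succ n => simp

lemma exists_glue0 (f : V0) : ∃ (r : V0) (p : W × W), z0 r + in0 p = f := by
  refine ⟨fun n => f (n + 1), f 0, ?_⟩
  funext n
  cases n with
  | zero => simp
  | succ n => simp

lemma glue0_inj (r : V0) (p : W × W) (h : z0 r + in0 p = 0) : r = 0 ∧ p = 0 := by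
  constructor
  · funext n
    have := congrFun h (n + 1)
    simpa using this
  · have := congrFun h 0
    simpa using this

lemma unit0 (m : ℕ) : IsUnit (z0 + ((m + 1 : ℕ) : Module.End ℚ V0)) := by
  have hm : ((m + 1 : ℕ) : ℚ) ≠ 0 := by positivity
  have hval : ∀ f : V0, (z0 + ((m + 1 : ℕ) : Module.End ℚ V0)) f = z0 f + ((m + 1 : ℕ) : ℚ) • f := by
    intro f
    rw [LinearMap.add_apply]
    congr 1
  rw [Module.End.isUnit_iff]
  constructor
  · rw [← LinearMap.ker_eq_bot, Submodule.eq_bot_iff]
    intro f hf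
    rw [LinearMap.mem_ker, hval] at hf
    have h0 : ∀ n, f n = 0 := by
      intro n
      induction n with
      | zero =>
        have := congrFun hf 0
        rw [Pi.add_apply, z0_zero, zero_add, Pi.smul_apply, Pi.zero_apply] at this
        rw [← one_smul ℚ (f 0), ← inv_mul_cancel₀ hm, mul_smul, this, smul_zero]
      | succ n ih =>
        have := congrFun hf (n + 1)
        rw [Pi.add_apply, z0_succ, ih, zero_add, Pi.smul_apply, Pi.zero_apply] at this
        rw [← one_smul ℚ (f (n + 1)), ← inv_mul_cancel₀ hm, mul_smul, this, smul_zero]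
    funext n
    exact h0 n
  · intro f
    let h : V0 := fun n => Nat.rec (((m + 1 : ℕ) : ℚ)⁻¹ • f 0)
      (fun n a => ((m + 1 : ℕ) : ℚ)⁻¹ • (f (n + 1) - a)) n
    refine ⟨h, ?_⟩
    rw [hval]
    funext n
    cases n with
    | zero =>
      rw [Pi.add_apply, z0_zero, zero_add, Pi.smul_apply]
      change ((m + 1 : ℕ) : ℚ) • (((m + 1 : ℕ) : ℚ)⁻¹ • f 0) = f 0
      rw [smul_smul, mul_inv_cancel₀ hm, one_smul]
    | succ n =>
      rw [Pi.add_apply, z0_succ, Pi.smul_apply]
      change h n + ((m + 1 : ℕ) : ℚ) • (((m + 1 : ℕ) : ℚ)⁻¹ • (f (n + 1) - h n)) = f (n + 1)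
      rw [smul_smul, mul_inv_cancel₀ hm, one_smul]
      abel

end Pool.Agent.Helper30.HopfSpace
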