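import Pool.Agent.Helper30.FreeHopf
import Pool.Agent.Helper30.HopfSeq
import Pool.Agent.Helper30.HopfSpace

set_option autoImplicit false
set_option linter.unusedSimpArgs false

namespace Pool.Agent.Helper30.HopfMain

open FreeHopf HopfSeq HopfSpace Matrix

abbrev V : Type := V0 × W
abbrev I : Type := Fin 2 ⊕ Fin 2

noncomputable def Q0 : Matrix I I (Module.End ℚ V0) :=
  fromBlocks (Bm x0 y0 1 (z0 + (0 + 1 : ℕ))) 0 0 1
noncomputable def QW : Matrix I I (Module.End ℚ W) :=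
  fromBlocks 0 1 (Bm xW yW 1 (zW + (0 + 1 : ℕ))) !![0, 0; d1, d2]
noncomputable def E1 : Matrix I I (W →ₗ[ℚ] V0) :=
  fromBlocks !![0, in0 ∘ₗ LinearMap.inl ℚ W W; 0, in0 ∘ₗ LinearMap.inr ℚ W W] 0 0 0
noncomputable def G1 : Matrix I I (Module.End ℚ V) :=
  Matrix.of fun i j => tri (Q0 i j) (E1 i j) (QW i j)

lemma G1_mem : G1 ∈ PT (PD (PB x0 y0 z0)) (PL (PB xW yW zW)) := by
  refine ⟨Q0, ⟨_, ⟨1, 0, ?_, ?_, ?_, Or.inl rfl⟩, rfl⟩, QW,
    ⟨_, ⟨1, 0, ?_, ?_, ?_, Or.inl rfl⟩, _, Or.inl rfl⟩, E1, fun i j => rfl⟩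
  all_goals exact Commute.one_right _

lemma cl_big : Cl (PT (PD (PB x0 y0 z0)) (PL (PB xW yW zW))) :=
  cl_PT (cl_PD (cl_PB xy0 xz0 yz0 unit0)) (cl_PL (cl_PB xyW xzW yzW unitW))

/-- The operator on the fourfold sum given by the transpose of G1. -/
noncomputable def S : (I → V) →ₗ[ℚ] (I → V) :=
  LinearMap.pi fun j => ∑ i, (G1 i j) ∘ₗ LinearMap.proj i

lemma S_apply (w : I → V) (j : I) : S w j = ∑ i, G1 i j (w i) := by
  simp [S]

lemma S_l0 (w : I → V) : S w (Sum.inl 0) =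
    ((w (Sum.inl 0)).1 + y0 (w (Sum.inl 1)).1, (w (Sum.inr 0)).2 + yW (w (Sum.inr 1)).2) := by
  rw [S_apply]
  simp [Fintype.sum_sum_type, Fin.sum_univ_two, G1, Q0, QW, E1, Bm, Prod.ext_iff]

lemma S_l1 (w : I → V) : S w (Sum.inl 1) =
    (x0 (w (Sum.inl 0)).1 + (y0 (x0 (w (Sum.inl 1)).1) + z0 (w (Sum.inl 1)).1 + (w (Sum.inl 1)).1) +
      in0 ((w (Sum.inl 0)).2, (w (Sum.inl 1)).2),
      xW (w (Sum.inr 0)).2 + (yW (xW (w (Sum.inr 1)).2) + zW (w (Sum.inr 1)).2 +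
        (w (Sum.inr 1)).2)) := by
  rw [S_apply]
  have h : ∀ a b : W, in0 (a, b) = in0 (a, 0) + in0 (0, b) := fun a b => by
    rw [← map_add]; simp
  rw [h]
  simp [Fintype.sum_sum_type, Fin.sum_univ_two, G1, Q0, QW, E1, Bm, Prod.ext_iff]
  constructor <;> abel

lemma S_r0 (w : I → V) : S w (Sum.inr 0) =
    ((w (Sum.inr 0)).1, (w (Sum.inl 0)).2 + d1 (w (Sum.inr 1)).2) := by
  rw [S_apply]
  simp [Fintype.sum_sum_type, Fin.sum_univ_two, G1, Q0, QW, E1, Bm, Prod.ext_iff]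

lemma S_r1 (w : I → V) : S w (Sum.inr 1) =
    ((w (Sum.inr 1)).1, (w (Sum.inl 1)).2 + d2 (w (Sum.inr 1)).2) := by
  rw [S_apply]
  simp [Fintype.sum_sum_type, Fin.sum_univ_two, G1, Q0, QW, E1, Bm, Prod.ext_iff]

lemma xyW' (g : W) : xW (yW g) = yW (xW g) + g := LinearMap.congr_fun xyW g
lemma xy0' (g : V0) : x0 (y0 g) = y0 (x0 g) + g := LinearMap.congr_fun xy0 g

lemma top_inj (w : I → V) (h0 : (S w (Sum.inl 0)).1 = 0) (h1 : (S w (Sum.inl 1)).1 = 0) :
    w (Sum.inl 0) = 0 ∧ w (Sum.inl 1) = 0 := by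
  rw [S_l0] at h0
  rw [S_l1] at h1
  simp only at h0 h1
  have h2 : (w (Sum.inl 0)).1 = - y0 (w (Sum.inl 1)).1 := eq_neg_of_add_eq_zero_left h0
  rw [h2, map_neg, xy0'] at h1
  have h3 : z0 (w (Sum.inl 1)).1 + in0 ((w (Sum.inl 0)).2, (w (Sum.inl 1)).2) = 0 := by
    rw [← h1]; abel
  obtain ⟨h4, h5⟩ := glue0_inj _ _ h3
  rw [h4, map_zero, neg_zero] at h2
  rw [Prod.ext_iff] at h5
  exact ⟨Prod.ext h2 h5.1, Prod.ext h4 h5.2⟩

lemma S_inj : Function.Injective S := by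
  rw [← LinearMap.ker_eq_bot, Submodule.eq_bot_iff]
  intro w hw
  rw [LinearMap.mem_ker] at hw
  have e0 : S w (Sum.inl 0) = 0 := congrFun hw _
  have e1 : S w (Sum.inl 1) = 0 := congrFun hw _
  have e2 : S w (Sum.inr 0) = 0 := congrFun hw _
  have e3 : S w (Sum.inr 1) = 0 := congrFun hw _
  obtain ⟨h1, h2⟩ := top_inj w (by rw [e0]; rfl) (by rw [e1]; rfl)
  rw [S_l0, h1, h2] at e0
  rw [S_l1, h1, h2] at e1
  rw [S_r0, h1] at e2
  rw [S_r1, h2] at e3
  simp only [Prod.fst_zero, Prod.snd_zero, map_zero, zero_add, add_zero, Prod.mk_eq_zero] at e0 e1 e2 e3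
  have h3 : (w (Sum.inr 0)).2 = - yW (w (Sum.inr 1)).2 := eq_neg_of_add_eq_zero_left e0.2
  have e1' := e1.2
  rw [h3, map_neg, xyW'] at e1'
  have h4 : zW (w (Sum.inr 1)).2 = 0 := by
    rw [← e1']; abel
  have h5 := glue_inj _ h4 e2.2 e3.2
  rw [h5, map_zero, neg_zero] at h3
  funext i
  rcases i with i | i
  · fin_cases i
    · exact h1
    · exact h2
  · fin_cases i
    · exact Prod.ext e2.1 h3
    · exact Prod.ext e3.1 h5

lemma S_surj : Function.Surjective S := by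
  intro u
  obtain ⟨r, ⟨p1, p2⟩, hr⟩ := exists_glue0 ((u (Sum.inl 1)).1 - x0 (u (Sum.inl 0)).1)
  obtain ⟨f, hf0, hf1, hf2⟩ := exists_glue ((u (Sum.inl 1)).2 - xW (u (Sum.inl 0)).2)
    ((u (Sum.inr 0)).2 - p1) ((u (Sum.inr 1)).2 - p2)
  refine ⟨Sum.elim ![((u (Sum.inl 0)).1 - y0 r, p1), (r, p2)]
    ![((u (Sum.inr 0)).1, (u (Sum.inl 0)).2 - yW f), ((u (Sum.inr 1)).1, f)], ?_⟩
  funext i
  rcases i with i | i
  · fin_cases i
    · rw [show (Sum.inl ((fun i => i) ⟨0, by norm_num⟩) : I) = Sum.inl 0 from rfl, S_l0]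
      simp [Prod.ext_iff]
    · rw [show (Sum.inl ((fun i => i) ⟨1, by norm_num⟩) : I) = Sum.inl 1 from rfl, S_l1]
      simp only [Sum.elim_inl, Sum.elim_inr, Matrix.cons_val_zero, Matrix.cons_val_one, map_sub,
        xy0', xyW', hf0]
      refine Prod.ext ?_ ?_
      · simp only
        have : in0 (p1, p2) = (u (Sum.inl 1)).1 - x0 (u (Sum.inl 0)).1 - z0 r := by
          rw [← hr]; abel
        rw [this]
        abel
      · simp only
        abel
  · fin_cases i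
    · rw [show (Sum.inr ((fun i => i) ⟨0, by norm_num⟩) : I) = Sum.inr 0 from rfl, S_r0]
      simp [Prod.ext_iff, hf1]
    · rw [show (Sum.inr ((fun i => i) ⟨1, by norm_num⟩) : I) = Sum.inr 1 from rfl, S_r1]
      simp [Prod.ext_iff, hf2]

/-- S as an equivalence. -/
noncomputable def Se : (I → V) ≃ₗ[ℚ] (I → V) := LinearEquiv.ofBijective S ⟨S_inj, S_surj⟩

/-- The zeroth matrix: the inverse of the transpose of G1. -/
noncomputable def G0 : Matrix I I (Module.End ℚ V) :=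
  Matrix.of fun i j => LinearMap.proj i ∘ₗ Se.symm.toLinearMap ∘ₗ LinearMap.single ℚ (fun _ => V) j

lemma G0_apply (i j : I) (v : V) : G0 i j v = Se.symm (Pi.single j v) i := rfl

lemma nxt01 : Nxt G0 G1 := by
  rw [nxt_iff]
  constructor
  · intro i j
    apply LinearMap.ext
    intro v
    rw [LinearMap.sum_apply]
    simp only [Module.End.mul_apply, G0_apply]
    have h1 : ∑ l, (Pi.single l (G1 j l v) : I → V) = S (Pi.single j v) := by
      funext m
      rw [Finset.sum_apply, S_apply]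
      rw [Finset.sum_eq_single m, Finset.sum_eq_single j]
      · simp
      · intro b _ hb
        rw [Pi.single_eq_of_ne hb, map_zero]
      · simp
      · intro b _ hb
        rw [Pi.single_eq_of_ne (Ne.symm hb)]
      · simp
    have h2 : ∑ l, Se.symm (Pi.single l (G1 j l v)) = Pi.single j v := by
      rw [← map_sum, h1]
      exact Se.symm_apply_apply _
    have h3 := congrFun h2 i
    rw [Finset.sum_apply] at h3
    rw [h3, Pi.single_apply]
    split_ifs <;> simp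
  · intro i j
    apply LinearMap.ext
    intro v
    rw [LinearMap.sum_apply]
    simp only [Module.End.mul_apply, G0_apply]
    rw [← S_apply]
    have h1 : S (Se.symm (Pi.single j v)) = Pi.single j v := Se.apply_symm_apply _
    rw [h1, Pi.single_apply]
    split_ifs <;> simp

lemma G0_zero (j : Fin 2) : G0 (Sum.inl 0) (Sum.inr j) = 0 := by
  apply LinearMap.ext
  intro v
  rw [G0_apply]
  have h1 : S (Se.symm (Pi.single (Sum.inr j) v)) = Pi.single (Sum.inr j) v := Se.apply_symm_apply _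
  have h2 := top_inj (Se.symm (Pi.single (Sum.inr j) v)) (by rw [h1]; simp) (by rw [h1]; simp)
  exact h2.1

lemma G1_snd (j : Fin 2) (v : V) : (G1 (Sum.inl 0) (Sum.inl j) v).2 = 0 := by
  simp [G1, QW]

lemma exists_G : ∃ G : ℕ → Matrix I I (Module.End ℚ V), (∀ r, Nxt (G r) (G (r + 1))) ∧
    (∀ r i j (f : V0), (G (r + 1) i j (f, 0)).2 = 0) ∧
    (∀ j : Fin 2, G 0 (Sum.inl 0) (Sum.inr j) = 0) ∧
    (∀ (j : Fin 2) (v : V), (G 1 (Sum.inl 0) (Sum.inl j) v).2 = 0) := by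
  obtain ⟨G, h0, hmem, hnxt⟩ := exists_seq cl_big G1_mem
  refine ⟨fun r => Nat.casesOn r G0 G, ?_, ?_, G0_zero, ?_⟩
  · intro r
    cases r with
    | zero => simp only [h0]; exact nxt01
    | succ r => exact hnxt r
  · intro r i j f
    obtain ⟨Q, -, Q', -, e, he⟩ := hmem r
    simp only
    rw [he, tri_apply]
    simp
  · intro j v
    change ((G 0 (Sum.inl 0) (Sum.inl j)) v).2 = 0
    rw [h0]
    exact G1_snd j v

/-- A linear embedding of a free algebra into W. -/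
lemma exists_embed (d : ℕ) : ∃ (i : FreeAlgebra ℚ (Fin d) →ₗ[ℚ] W) (q : W →ₗ[ℚ] FreeAlgebra ℚ (Fin d)),
    ∀ u, q (i u) = u := by
  classical
  obtain ⟨e, he⟩ := exists_injective_nat (FreeMonoid (Fin d))
  let i1 := (FreeAlgebra.basisFreeMonoid ℚ (Fin d)).repr.toLinearMap
  let i2 : (FreeMonoid (Fin d) →₀ ℚ) →ₗ[ℚ] (FreeMonoid (Fin d) →₀ U) :=
    Finsupp.mapRange.linearMap (Algebra.linearMap ℚ U)
  let i3 : (FreeMonoid (Fin d) →₀ U) →ₗ[ℚ] W := Finsupp.lmapDomain U ℚ e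
  have hinj : Function.Injective (i3 ∘ₗ i2 ∘ₗ i1) := by
    have h3 : Function.Injective i3 := Finsupp.mapDomain_injective he
    have h2 : Function.Injective i2 :=
      Finsupp.mapRange_injective _ (map_zero _) (algebraMap ℚ U).injective
    exact (h3.comp h2).comp (LinearEquiv.injective _)
  obtain ⟨q, hq⟩ := LinearMap.exists_leftInverse_of_injective _ (LinearMap.ker_eq_bot.mpr hinj)
  exact ⟨_, q, fun u => LinearMap.congr_fun hq u⟩


end Pool.Agent.Helper30.HopfMain
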