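import Mathlib

set_option autoImplicit false

namespace Pool.Agent.Helper30.NilUniv

universe u v

/-- words in three letters -/
abbrev Wd : Type := List (Fin 3)

/-- the free monoid on three letters -/
abbrev M : Type := FreeMonoid (Fin 3)

/-- the free associative algebra on three letters -/
abbrev W (F : Type u) [Field F] : Type u := MonoidAlgebra F M

variable {F : Type u} [Field F]

/-- evaluate the word functional `l` on `u z v` -/
noncomputable def pr (l : Wd → F) (z : W F) (u v : Wd) : F :=
  z.coeff.sum (fun w c => c * l (u ++ w.toList ++ v))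

lemma pr_zero (l : Wd → F) (u v : Wd) : pr l 0 u v = 0 := by
  simp [pr]

lemma pr_single (l : Wd → F) (w : M) (c : F) (u v : Wd) :
    pr l (MonoidAlgebra.single w c) u v = c * l (u ++ w.toList ++ v) := by
  simp [pr]

lemma pr_add (l : Wd → F) (z z' : W F) (u v : Wd) :
    pr l (z + z') u v = pr l z u v + pr l z' u v := by
  unfold pr
  rw [MonoidAlgebra.coeff_add]
  exact Finsupp.sum_add_index' (by simp) (by intros; ring)

lemma pr_smul (l : Wd → F) (a : F) (z : W F) (u v : Wd) :
    pr l (a • z) u v = a * pr l z u v := by
  unfold pr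
  rw [MonoidAlgebra.coeff_smul]
  rw [Finsupp.sum_smul_index' (by simp), Finsupp.mul_sum]
  simp [mul_assoc]

lemma pr_left_add (l l' : Wd → F) (z : W F) (u v : Wd) :
    pr (l + l') z u v = pr l z u v + pr l' z u v := by
  simp [pr, mul_add, Finsupp.sum_add]

lemma pr_left_smul (l : Wd → F) (a : F) (z : W F) (u v : Wd) :
    pr (a • l) z u v = a * pr l z u v := by
  simp only [pr, Pi.smul_apply, smul_eq_mul, Finsupp.mul_sum]
  refine Finsupp.sum_congr fun w _ => by ring

lemma pr_left_zero (z : W F) (u v : Wd) : pr (0 : Wd → F) z u v = 0 := by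
  simp [pr]

/-- functionals of degree `n` killing all consequences of the relations `f e` -/
def X (f : ℕ → W F) (n : ℕ) : Submodule F (Wd → F) where
  carrier := {l | (∀ w : Wd, w.length ≠ n → l w = 0) ∧ ∀ (e : ℕ) (u v : Wd), pr l (f e) u v = 0}
  zero_mem' := ⟨fun _ _ => rfl, fun _ _ _ => pr_left_zero _ _ _⟩
  add_mem' := by
    rintro l l' ⟨h1, h2⟩ ⟨h3, h4⟩
    refine ⟨fun w hw => by simp [h1 w hw, h3 w hw], fun e u v => ?_⟩
    rw [pr_left_add, h2, h4, add_zero]
  smul_mem' := by
    rintro a l ⟨h1, h2⟩
    refine ⟨fun w hw => by simp [h1 w hw], fun e u v => ?_⟩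
    rw [pr_left_smul, h2, mul_zero]

lemma X_finite (f : ℕ → W F) (n : ℕ) : Module.Finite F (X f n) := by
  let r : (X f n) →ₗ[F] (List.Vector (Fin 3) n → F) :=
    { toFun := fun l w => l.1 w.1
      map_add' := fun _ _ => rfl
      map_smul' := fun _ _ => rfl }
  refine Module.Finite.of_injective r ?_
  intro l l' h
  ext w
  by_cases hw : w.length = n
  · exact congrFun h ⟨w, hw⟩
  · rw [l.2.1 w hw, l'.2.1 w hw]

/-- prepend a letter -/
def C : (Fin 3 → (Wd → F)) →ₗ[F] (Wd → F) where
  toFun := fun g w => match w with
    | [] => 0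
    | x :: w' => g x w'
  map_add' := by
    intro g h
    funext w
    cases w <;> simp
  map_smul' := by
    intro a g
    funext w
    cases w <;> simp

lemma C_cons (g : Fin 3 → (Wd → F)) (x : Fin 3) (w : Wd) : C g (x :: w) = g x w := rfl
lemma C_nil (g : Fin 3 → (Wd → F)) : C g [] = 0 := rfl

/-- hypothesis: `f e` is homogeneous of degree `e` -/
def Homog (f : ℕ → W F) : Prop := ∀ e, ∀ w ∈ (f e).coeff.support, w.toList.length = e

lemma pr_swap (l : Wd → F) (z z' : W F) (u v t : Wd) :
    z.coeff.sum (fun w c => c * z'.coeff.sum (fun w' c' =>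
      c' * l (t ++ w'.toList ++ (u ++ w.toList ++ v)))) =
    z'.coeff.sum (fun w' c' => c' * z.coeff.sum (fun w c =>
      c * l ((t ++ w'.toList ++ u) ++ w.toList ++ v))) := by
  simp only [Finsupp.mul_sum]
  rw [Finsupp.sum_comm]
  refine Finsupp.sum_congr fun w _ => Finsupp.sum_congr fun w' _ => ?_
  simp only [List.append_assoc]
  ring

lemma pr_eq_zero {l : Wd → F} {z : W F} {u v : Wd}
    (h : ∀ w ∈ z.coeff.support, l (u ++ w.toList ++ v) = 0) : pr l z u v = 0 := by
  unfold pr
  refine Finset.sum_eq_zero fun w hw => ?_
  show z.coeff w * l (u ++ w.toList ++ v) = 0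
  rw [h w hw, mul_zero]

/-- If all `g x` are in `X f n` then the consequence functional is in `X f k` -/
lemma mem_X_of {f : ℕ → W F} (hf : Homog f) {n k e : ℕ} (he : 1 ≤ e) (hk : k + e = n + 1)
    (g : Fin 3 → (Wd → F)) (hg : ∀ x, g x ∈ X f n) :
    (fun v => pr (C g) (f e) [] v) ∈ X f k := by
  constructor
  · intro v hv
    refine pr_eq_zero fun w hw => ?_
    have hl := hf e w hw
    match hm : w.toList with
    | [] => rw [hm] at hl; simp at hl; omega
    | x :: w' =>
      rw [hm] at hl
      simp only [List.length_cons] at hl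
      simp only [List.nil_append, List.cons_append, C_cons]
      refine (hg x).1 _ ?_
      rw [List.length_append]
      omega
  · intro e' u v
    have : pr (fun v => pr (C g) (f e) [] v) (f e') u v =
        (f e).coeff.sum (fun w' c' => c' * (f e').coeff.sum (fun w c =>
      c * (C g) (([] ++ w'.toList ++ u) ++ w.toList ++ v))) := by
      rw [← pr_swap]
      rfl
    rw [this]
    refine Finset.sum_eq_zero fun w' hw' => ?_
    have hl := hf e w' hw'
    match hm : w'.toList with
    | [] => rw [hm] at hl; simp at hl; omega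
    | x :: w'' =>
      have h2 := (hg x).2 e' (w'' ++ u) v
      simp only [List.nil_append, hm, List.cons_append, C_cons]
      unfold pr at h2
      rw [h2, mul_zero]

/-- the consequence map -/
noncomputable def Phi {f : ℕ → W F} (hf : Homog f) (n : ℕ) :
    (Fin 3 → X f n) →ₗ[F] ((k : Fin n) → X f k.1) :=
  LinearMap.pi fun k => LinearMap.codRestrict (X f k.1)
    { toFun := fun g => fun v => pr (C (fun x => (g x).1)) (f (n + 1 - k.1)) [] v
      map_add' := by
        intro g h
        funext v
        have : C (fun x => ((g + h) x).1) = C (fun x => (g x).1) + C (fun x => (h x).1) := by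
          rw [← map_add]
          rfl
        rw [this, pr_left_add]
        rfl
      map_smul' := by
        intro a g
        funext v
        have : C (fun x => ((a • g) x).1) = a • C (fun x => (g x).1) := by
          rw [← map_smul]
          rfl
        rw [this, pr_left_smul]
        rfl }
    (fun g => mem_X_of hf (by have := k.2; omega) (by have := k.2; omega) _ (fun x => (g x).2))

lemma Phi_apply {f : ℕ → W F} (hf : Homog f) (n : ℕ) (g : Fin 3 → X f n) (k : Fin n) (v : Wd) :
    (Phi hf n g k).1 v = pr (C (fun x => (g x).1)) (f (n + 1 - k.1)) [] v := rfl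

lemma ker_mem {f : ℕ → W F} (hf : Homog f) (h0 : f 0 = 0) (h1 : f 1 = 0) (n : ℕ)
    (g : Fin 3 → X f n) (hg : Phi hf n g = 0) : C (fun x => (g x).1) ∈ X f (n + 1) := by
  constructor
  · intro w hw
    match w with
    | [] => rfl
    | x :: w' =>
      rw [C_cons]
      refine (g x).2.1 w' ?_
      simp only [List.length_cons] at hw
      omega
  · intro e u v
    match u with
    | x :: u' =>
      have := (g x).2.2 e u' v
      unfold pr at this ⊢
      simpa [C_cons] using this
    | [] =>
      by_cases hlen : e + v.length = n + 1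
      · by_cases he0 : e = 0
        · subst he0; rw [h0, pr_zero]
        by_cases he1 : e = 1
        · subst he1; rw [h1, pr_zero]
        have hk : v.length < n := by omega
        have h := congrFun (congrArg Subtype.val (congrFun hg ⟨v.length, hk⟩)) v
        rw [Phi_apply] at h
        have he : n + 1 - v.length = e := by omega
        simp only [he] at h
        exact h
      · refine pr_eq_zero fun w hw => ?_
        have hl := hf e w hw
        match hm : w.toList with
        | [] =>
          rw [hm] at hl
          simp only [List.length_nil] at hl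
          subst hl
          rw [h0] at hw
          simp at hw
        | x :: w' =>
          rw [hm] at hl
          simp only [List.length_cons] at hl
          simp only [List.nil_append, List.cons_append, C_cons]
          refine (g x).2.1 _ ?_
          rw [List.length_append]
          omega

lemma step {f : ℕ → W F} (hf : Homog f) (h0 : f 0 = 0) (h1 : f 1 = 0) (n : ℕ) :
    3 * Module.finrank F (X f n) ≤ Module.finrank F (X f (n + 1)) +
      ∑ k ∈ Finset.range n, Module.finrank F (X f k) := by
  have : ∀ k, Module.Finite F (X f k) := fun k => X_finite f k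
  have e1 := LinearMap.finrank_range_add_finrank_ker (Phi hf n)
  have e2 : Module.finrank F (Fin 3 → X f n) = 3 * Module.finrank F (X f n) := by
    rw [Module.finrank_pi_fintype]
    simp
  have e3 : Module.finrank F (LinearMap.range (Phi hf n)) ≤
      ∑ k ∈ Finset.range n, Module.finrank F (X f k) := by
    refine (Submodule.finrank_le _).trans ?_
    rw [Module.finrank_pi_fintype, Finset.sum_range]
  have e4 : Module.finrank F (LinearMap.ker (Phi hf n)) ≤ Module.finrank F (X f (n + 1)) := by
    let r : (LinearMap.ker (Phi hf n)) →ₗ[F] (X f (n + 1)) :=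
      { toFun := fun g => ⟨C (fun x => (g.1 x).1), ker_mem hf h0 h1 n g.1 g.2⟩
        map_add' := by
          intro g h
          apply Subtype.ext
          change C (fun x => ((g.1 + h.1) x).1) = C (fun x => (g.1 x).1) + C (fun x => (h.1 x).1)
          rw [← map_add]
          rfl
        map_smul' := by
          intro a g
          apply Subtype.ext
          change C (fun x => ((a • g.1) x).1) = a • C (fun x => (g.1 x).1)
          rw [← map_smul]
          rfl }
    refine LinearMap.finrank_le_finrank_of_injective (f := r) ?_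
    intro g h hgh
    apply Subtype.ext
    funext x
    apply Subtype.ext
    funext w
    have := congrFun (congrArg Subtype.val hgh) (x :: w)
    exact this
  omega

lemma arith (a : ℕ → ℕ) (h0 : 1 ≤ a 0)
    (hs : ∀ n, 3 * a n ≤ a (n + 1) + ∑ k ∈ Finset.range n, a k) : ∀ n, 1 ≤ a n := by
  have key : ∀ n, ∑ k ∈ Finset.range n, a k ≤ a n ∧ 1 ≤ a n := by
    intro n
    induction n with
    | zero => simpa using h0
    | succ n ih =>
      have := hs n
      rw [Finset.sum_range_succ]
      omega
  exact fun n => (key n).2

/-- Golod-Shafarevich: at most one relation in each degree `≥ 2` leaves a nonzero functional in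
every degree. -/
lemma exists_functional {f : ℕ → W F} (hf : Homog f) (h0 : f 0 = 0) (h1 : f 1 = 0) (n : ℕ) :
    ∃ l ∈ X f n, ∃ w : Wd, w.length = n ∧ l w ≠ 0 := by
  have : ∀ k, Module.Finite F (X f k) := fun k => X_finite f k
  have hz : 1 ≤ Module.finrank F (X f 0) := by
    rw [Nat.one_le_iff_ne_zero]
    intro hz
    rw [Module.finrank_zero_iff] at hz
    have hm : (fun w : Wd => if w = [] then (1 : F) else 0) ∈ X f 0 := by
      constructor
      · intro w hw
        have : w ≠ [] := by
          rintro rfl
          simp at hw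
        simp [this]
      · intro e u v
        refine pr_eq_zero fun w hw => ?_
        have hl := hf e w hw
        have he : e ≠ 0 := by
          rintro rfl
          rw [h0] at hw
          simp at hw
        have : u ++ w.toList ++ v ≠ [] := by
          intro h
          have := congrArg List.length h
          simp only [List.length_append, List.length_nil] at this
          omega
        rw [if_neg this]
    have := congrFun (congrArg Subtype.val (Subsingleton.elim (⟨_, hm⟩ : X f 0) 0)) []
    simp at this
  have hn := arith (fun k => Module.finrank F (X f k)) hz (fun k => step hf h0 h1 k) n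
  have hne : Module.finrank F (X f n) ≠ 0 := by
    have : 1 ≤ Module.finrank F (X f n) := hn
    omega
  have : Nontrivial (X f n) := Module.finrank_pos_iff.1 (Nat.pos_of_ne_zero hne)
  obtain ⟨l, hl⟩ := exists_ne (0 : X f n)
  have : ∃ w, l.1 w ≠ 0 := by
    by_contra hcon
    push Not at hcon
    exact hl (Subtype.ext (funext hcon))
  obtain ⟨w, hw⟩ := this
  refine ⟨l.1, l.2, w, ?_, hw⟩
  by_contra hlen
  exact hw (l.2.1 w hlen)

/-- product functional: `m` consecutive blocks of length `D`, each evaluated with `l` -/
def lam (l : Wd → F) (D : ℕ) : ℕ → Wd → F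
  | 0, w => if w = [] then 1 else 0
  | m + 1, w => l (w.take D) * lam l D m (w.drop D)

lemma lam_succ (l : Wd → F) (D m : ℕ) (w : Wd) :
    lam l D (m + 1) w = l (w.take D) * lam l D m (w.drop D) := rfl

lemma lam_zero_ne (l : Wd → F) (D : ℕ) (w : Wd) (h : w ≠ []) : lam l D 0 w = 0 := by
  simp [lam, h]

lemma pr_def (l : Wd → F) (z : W F) (u v : Wd) :
    pr l z u v = ∑ w ∈ z.coeff.support, z.coeff w * l (u ++ w.toList ++ v) := rfl

lemma pr_single_mul (l : Wd → F) (w : M) (c : F) (z : W F) (u v : Wd) :
    pr l (MonoidAlgebra.single w c * z) u v = c * pr l z (u ++ w.toList) v := by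
  induction z using MonoidAlgebra.induction_linear with
  | zero => simp [pr_zero]
  | add x y hx hy => rw [mul_add, pr_add, pr_add, hx, hy]; ring
  | single w' c' =>
    rw [MonoidAlgebra.single_mul_single, pr_single, pr_single, FreeMonoid.toList_mul]
    simp only [List.append_assoc]
    ring

lemma pr_mul (l : Wd → F) (x z : W F) (u v : Wd) :
    pr l (x * z) u v = ∑ w ∈ x.coeff.support, x.coeff w * pr l z (u ++ w.toList) v := by
  have key : ∀ x : W F, pr l (x * z) u v = x.coeff.sum fun w c => c * pr l z (u ++ w.toList) v := by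
    intro x
    induction x using MonoidAlgebra.induction_linear with
    | zero => simp [pr_zero]
    | add x y hx hy =>
      rw [add_mul, pr_add, hx, hy, MonoidAlgebra.coeff_add]
      exact (Finsupp.sum_add_index' (by simp) (by intros; ring)).symm
    | single w' c' =>
      rw [pr_single_mul]
      simp
  exact key x

section block

variable {l : Wd → F} {D : ℕ} {y : W F}

lemma sum_len (hs : ∀ w : Wd, w.length ≠ D → l w = 0) (hl : ∀ u v, pr l y u v = 0)
    (u z : Wd) (e : ℕ) :
    ∑ w ∈ y.coeff.support.filter (fun w => w.toList.length = e),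
      y.coeff w * l (u ++ w.toList ++ z) = 0 := by
  classical
  by_cases h : u.length + e + z.length = D
  · have := hl u z
    rw [pr_def] at this
    rw [← this]
    refine Finset.sum_subset_zero_on_sdiff (Finset.filter_subset _ _) ?_ (fun _ _ => rfl)
    intro w hw
    have hne : w.toList.length ≠ e := by
      simp only [Finset.mem_sdiff, Finset.mem_filter, not_and] at hw
      exact hw.2 hw.1
    rw [hs, mul_zero]
    rw [List.length_append, List.length_append]
    omega
  · refine Finset.sum_eq_zero fun w hw => ?_
    rw [Finset.mem_filter] at hw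
    rw [hs, mul_zero]
    rw [List.length_append, List.length_append]
    omega

lemma sum_len_lam (hs : ∀ w : Wd, w.length ≠ D → l w = 0) (hl : ∀ u v, pr l y u v = 0)
    (m : ℕ) (u z : Wd) (e : ℕ) (he : u.length + e ≤ D) :
    ∑ w ∈ y.coeff.support.filter (fun w => w.toList.length = e),
      y.coeff w * lam l D (m + 1) (u ++ w.toList ++ z) = 0 := by
  have h1 : ∀ w ∈ y.coeff.support.filter (fun w => w.toList.length = e),
      y.coeff w * lam l D (m + 1) (u ++ w.toList ++ z) =
      (y.coeff w * l (u ++ w.toList ++ z.take (D - u.length - e))) *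
        lam l D m (z.drop (D - u.length - e)) := by
    intro w hw
    rw [Finset.mem_filter] at hw
    have hlen : (u ++ w.toList).length = u.length + e := by rw [List.length_append, hw.2]
    have t1 : (u ++ w.toList ++ z).take D = u ++ w.toList ++ z.take (D - u.length - e) := by
      rw [List.take_append, List.take_of_length_le (by omega), hlen]
      congr 2
      omega
    have t2 : (u ++ w.toList ++ z).drop D = z.drop (D - u.length - e) := by
      rw [List.drop_append, List.drop_of_length_le (by omega), hlen, List.nil_append]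
      congr 1
      omega
    rw [lam_succ, t1, t2, mul_assoc]
  rw [Finset.sum_congr rfl h1, ← Finset.sum_mul, sum_len hs hl, zero_mul]

lemma sum_pred_lam (hs : ∀ w : Wd, w.length ≠ D → l w = 0) (hl : ∀ u v, pr l y u v = 0)
    (m : ℕ) (u z : Wd) (s : Finset M) (n : ℕ)
    (hs' : s = y.coeff.support.filter (fun w => w.toList.length < n)) (hn : u.length + n ≤ D + 1) :
    ∑ w ∈ s, y.coeff w * lam l D (m + 1) (u ++ w.toList ++ z) = 0 := by
  subst hs'
  rw [← Finset.sum_fiberwise_of_maps_to (t := Finset.range n) (g := fun w => w.toList.length)]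
  · refine Finset.sum_eq_zero fun e he => ?_
    rw [Finset.mem_range] at he
    rw [Finset.filter_filter]
    have : (y.coeff.support.filter (fun w => w.toList.length < n ∧ w.toList.length = e)) =
        y.coeff.support.filter (fun w => w.toList.length = e) := by
      refine Finset.filter_congr fun w _ => ?_
      constructor
      · exact fun h => h.2
      · exact fun h => ⟨by omega, h⟩
    rw [this]
    exact sum_len_lam hs hl m u z e (by omega)
  · intro w hw
    rw [Finset.mem_filter] at hw
    exact Finset.mem_range.2 hw.2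

lemma pr_lam_single (hs : ∀ w : Wd, w.length ≠ D → l w = 0) (hl : ∀ u v, pr l y u v = 0)
    (hy0 : ∀ w ∈ y.coeff.support, w.toList ≠ [])
    (m : ℕ) (u z : Wd) (hu : ∀ w ∈ y.coeff.support, u.length + w.toList.length ≤ D) :
    pr (lam l D m) y u z = 0 := by
  match m with
  | 0 =>
    refine pr_eq_zero fun w hw => lam_zero_ne _ _ _ ?_
    have := hy0 w hw
    simp [this]
  | m + 1 =>
    by_cases hne : u.length ≤ D
    · rw [pr_def]
      refine sum_pred_lam hs hl m u z _ (D + 1 - u.length) ?_ (by omega)
      refine (Finset.filter_true_of_mem fun w hw => ?_).symm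
      have := hu w hw
      omega
    · rw [pr_def]
      refine Finset.sum_eq_zero fun w hw => ?_
      have := hu w hw
      omega

lemma block (hs : ∀ w : Wd, w.length ≠ D → l w = 0) (hl : ∀ u v, pr l y u v = 0)
    (hy0 : ∀ w ∈ y.coeff.support, w.toList ≠ [])
    (hyL : ∀ w ∈ y.coeff.support, 2 * w.toList.length ≤ D) :
    ∀ (m : ℕ) (u v : Wd), pr (lam l D m) (y * y) u v = 0 := by
  intro m
  induction m with
  | zero =>
    intro u v
    rw [pr_mul]
    refine Finset.sum_eq_zero fun w1 hw1 => ?_
    rw [pr_eq_zero, mul_zero]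
    intro w2 hw2
    refine lam_zero_ne _ _ _ ?_
    have := hy0 w2 hw2
    simp [this]
  | succ m ih =>
    intro u v
    by_cases hu : D ≤ u.length
    · -- reduce to the next block
      have : ∀ w1 ∈ y.coeff.support, y.coeff w1 * pr (lam l D (m + 1)) y (u ++ w1.toList) v =
          l (u.take D) * (y.coeff w1 * pr (lam l D m) y (u.drop D ++ w1.toList) v) := by
        intro w1 _
        rw [pr_def, pr_def, Finset.mul_sum, Finset.mul_sum, Finset.mul_sum]
        refine Finset.sum_congr rfl fun w2 _ => ?_
        have t1 : (u ++ w1.toList ++ w2.toList ++ v).take D = u.take D := by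
          rw [List.append_assoc, List.append_assoc, List.take_append_of_le_length hu]
        have t2 : (u ++ w1.toList ++ w2.toList ++ v).drop D =
            u.drop D ++ w1.toList ++ w2.toList ++ v := by
          rw [List.append_assoc, List.append_assoc, List.drop_append_of_le_length hu]
          simp [List.append_assoc]
        rw [lam_succ, t1, t2]
        ring
      rw [pr_mul, Finset.sum_congr rfl this, ← Finset.mul_sum, ← pr_mul, ih, mul_zero]
    · have hu' : u.length < D := by omega
      rw [pr_mul, ← Finset.sum_filter_add_sum_filter_not y.coeff.support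
        (fun w => w.toList.length < D - u.length)]
      have hA : ∑ w1 ∈ y.coeff.support.filter (fun w => w.toList.length < D - u.length),
          y.coeff w1 * pr (lam l D (m + 1)) y (u ++ w1.toList) v = 0 := by
        have e : ∀ w1 ∈ y.coeff.support.filter (fun w => w.toList.length < D - u.length),
            y.coeff w1 * pr (lam l D (m + 1)) y (u ++ w1.toList) v =
            ∑ w2 ∈ y.coeff.support, y.coeff w2 * (y.coeff w1 *
              lam l D (m + 1) (u ++ w1.toList ++ (w2.toList ++ v))) := by
          intro w1 _
          rw [pr_def, Finset.mul_sum]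
          refine Finset.sum_congr rfl fun w2 _ => ?_
          rw [List.append_assoc (u ++ w1.toList) w2.toList v]
          ring
        rw [Finset.sum_congr rfl e, Finset.sum_comm]
        refine Finset.sum_eq_zero fun w2 _ => ?_
        rw [← Finset.mul_sum, sum_pred_lam hs hl m u (w2.toList ++ v) _ (D - u.length) rfl
          (by omega), mul_zero]
      have hB : ∑ w1 ∈ y.coeff.support.filter (fun w => ¬ w.toList.length < D - u.length),
          y.coeff w1 * pr (lam l D (m + 1)) y (u ++ w1.toList) v = 0 := by
        refine Finset.sum_eq_zero fun w1 hw1 => ?_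
        rw [Finset.mem_filter] at hw1
        have hlen1 : D - u.length ≤ w1.toList.length := by omega
        have hlen2 : D ≤ (u ++ w1.toList).length := by
          rw [List.length_append]; omega
        have hL1 := hyL w1 hw1.1
        have : pr (lam l D (m + 1)) y (u ++ w1.toList) v =
            l ((u ++ w1.toList).take D) * pr (lam l D m) y ((u ++ w1.toList).drop D) v := by
          rw [pr_def, pr_def, Finset.mul_sum]
          refine Finset.sum_congr rfl fun w2 _ => ?_
          have t1 : (u ++ w1.toList ++ w2.toList ++ v).take D = (u ++ w1.toList).take D := by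
            rw [List.append_assoc (u ++ w1.toList), List.take_append_of_le_length hlen2]
          have t2 : (u ++ w1.toList ++ w2.toList ++ v).drop D =
              (u ++ w1.toList).drop D ++ w2.toList ++ v := by
            rw [List.append_assoc (u ++ w1.toList), List.drop_append_of_le_length hlen2,
              List.append_assoc]
          rw [lam_succ, t1, t2]
          ring
        rw [this, pr_lam_single hs hl hy0, mul_zero, mul_zero]
        intro w2 hw2
        have hL2 := hyL w2 hw2
        rw [List.length_drop, List.length_append]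
        omega
      rw [hA, hB, add_zero]

end block

/-- all words of `z` have length in `[a, b]` -/
def Len (a b : ℕ) (z : W F) : Prop :=
  ∀ w ∈ z.coeff.support, a ≤ w.toList.length ∧ w.toList.length ≤ b

lemma Len.mul {a b a' b' : ℕ} {z z' : W F} (h : Len a b z) (h' : Len a' b' z') :
    Len (a + a') (b + b') (z * z') := by
  classical
  intro w hw
  have := MonoidAlgebra.support_coeff_mul_subset z z' hw
  obtain ⟨w1, h1, w2, h2, rfl⟩ := Finset.mem_mul.1 this
  have e1 := h w1 h1
  have e2 := h' w2 h2
  rw [FreeMonoid.toList_mul, List.length_append]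
  omega

lemma Len.pow {b : ℕ} {z : W F} (h : Len 1 b z) (n : ℕ) : Len n (n * b) (z ^ n) := by
  induction n with
  | zero =>
    intro w hw
    rw [pow_zero] at hw
    have := MonoidAlgebra.support_coeff_one_subset hw
    rw [Finset.mem_one] at this
    subst this
    simp
  | succ n ih =>
    rw [pow_succ]
    have := ih.mul h
    rwa [show n * b + b = (n + 1) * b by ring] at this

/-- homogeneous component of degree `e` -/
noncomputable def comp (e : ℕ) (z : W F) : W F :=
  MonoidAlgebra.ofCoeff (z.coeff.filter (fun w => w.toList.length = e))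

lemma comp_homog (e : ℕ) (z : W F) (w : M) (hw : w ∈ (comp e z).coeff.support) :
    w.toList.length = e := by
  have : w ∈ (z.coeff.filter (fun w => w.toList.length = e)).support := hw
  rw [Finsupp.support_filter, Finset.mem_filter] at this
  exact this.2

lemma comp_eq_zero {a b e : ℕ} {z : W F} (h : Len a b z) (he : ¬ (a ≤ e ∧ e ≤ b)) :
    comp e z = 0 := by
  rw [← MonoidAlgebra.coeff_inj]
  have : (comp e z).coeff.support = ∅ := by
    rw [Finset.eq_empty_iff_forall_notMem]
    intro w hw
    have hw' : w ∈ (z.coeff.filter (fun w => w.toList.length = e)).support := hw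
    rw [Finsupp.support_filter, Finset.mem_filter] at hw'
    have := h w hw'.1
    rw [hw'.2] at this
    exact he this
  rw [Finsupp.support_eq_empty.1 this]
  rfl

lemma pr_comp {l : Wd → F} {n : ℕ} (hs : ∀ w : Wd, w.length ≠ n → l w = 0) (z : W F) (u v : Wd)
    (e : ℕ) (he : u.length + e + v.length = n) : pr l z u v = pr l (comp e z) u v := by
  classical
  rw [pr_def, pr_def]
  have h1 : (comp e z).coeff.support = z.coeff.support.filter (fun w => w.toList.length = e) := by
    change (z.coeff.filter (fun w => w.toList.length = e)).support = _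
    rw [Finsupp.support_filter]
  have h2 : ∀ w ∈ z.coeff.support.filter (fun w => w.toList.length = e),
      (comp e z).coeff w * l (u ++ w.toList ++ v) = z.coeff w * l (u ++ w.toList ++ v) := by
    intro w hw
    rw [Finset.mem_filter] at hw
    have : (comp e z).coeff w = z.coeff w := by
      change (z.coeff.filter (fun w => w.toList.length = e)) w = _
      exact Finsupp.filter_apply_pos (fun w : M => w.toList.length = e) _ hw.2
    rw [this]
  rw [h1, Finset.sum_congr rfl h2]
  symm
  refine Finset.sum_subset (Finset.filter_subset _ _) ?_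
  intro w hw hw'
  have hne : w.toList.length ≠ e := fun h => hw' (Finset.mem_filter.2 ⟨hw, h⟩)
  rw [hs, mul_zero]
  rw [List.length_append, List.length_append]
  omega

/-- degree bound -/
noncomputable def dl (z : W F) : ℕ := 1 + z.coeff.support.sup (fun w => w.toList.length)

lemma le_dl (z : W F) (w : M) (hw : w ∈ z.coeff.support) : w.toList.length ≤ dl z := by
  have := Finset.le_sup (f := fun w : M => w.toList.length) hw
  unfold dl
  omega

lemma one_le_dl (z : W F) : 1 ≤ dl z := by
  unfold dl; omega

section family

variable (g : ℕ → W F)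

/-- the exponents -/
noncomputable def nu : ℕ → ℕ
  | 0 => 2
  | j + 1 => nu j * dl (g j) + 1

lemma nu_lt (j : ℕ) : nu g j < nu g (j + 1) := by
  change nu g j < nu g j * dl (g j) + 1
  have := one_le_dl (g j)
  have : nu g j * 1 ≤ nu g j * dl (g j) := Nat.mul_le_mul_left _ this
  omega

lemma nu_mono : StrictMono (nu g) := strictMono_nat_of_lt_succ (nu_lt g)

lemma nu_ge (j : ℕ) : j + 2 ≤ nu g j := by
  induction j with
  | zero => exact le_refl _
  | succ j ih =>
    have := nu_lt g j
    omega

lemma nu_sep {j i : ℕ} (h : j < i) : nu g j * dl (g j) < nu g i := by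
  have h1 : nu g j * dl (g j) < nu g (j + 1) := Nat.lt_succ_self _
  exact h1.trans_le ((nu_mono g).monotone h)

/-- the relations, one in each degree -/
noncomputable def rel (e : ℕ) : W F := ∑ j ∈ Finset.range (e + 1), comp e (g j ^ nu g j)

variable {g}

lemma len_g (hg : ∀ j, ∀ w ∈ (g j).coeff.support, w.toList ≠ []) (j : ℕ) :
    Len (nu g j) (nu g j * dl (g j)) (g j ^ nu g j) := by
  refine Len.pow ?_ _
  intro w hw
  exact ⟨List.length_pos_of_ne_nil (hg j w hw), le_dl _ _ hw⟩

lemma rel_eq (hg : ∀ j, ∀ w ∈ (g j).coeff.support, w.toList ≠ []) (e j : ℕ)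
    (h : nu g j ≤ e ∧ e ≤ nu g j * dl (g j)) : rel g e = comp e (g j ^ nu g j) := by
  unfold rel
  refine Finset.sum_eq_single_of_mem j ?_ ?_
  · rw [Finset.mem_range]
    have := nu_ge g j
    omega
  · intro j' _ hne
    refine comp_eq_zero (len_g hg j') ?_
    rintro ⟨h1, h2⟩
    rcases lt_or_gt_of_ne hne with hlt | hgt
    · have := nu_sep g hlt
      omega
    · have := nu_sep g hgt
      omega

lemma rel_small (hg : ∀ j, ∀ w ∈ (g j).coeff.support, w.toList ≠ []) (e : ℕ) (he : e < 2) :
    rel g e = 0 := by
  unfold rel
  refine Finset.sum_eq_zero fun j _ => comp_eq_zero (len_g hg j) ?_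
  rintro ⟨h1, _⟩
  have := nu_ge g j
  omega

lemma rel_homog : Homog (rel g) := by
  classical
  intro e w hw
  by_contra hne
  rw [Finsupp.mem_support_iff] at hw
  apply hw
  unfold rel
  rw [MonoidAlgebra.coeff_sum, Finsupp.finsetSum_apply]
  refine Finset.sum_eq_zero fun j _ => ?_
  by_contra h
  exact hne (comp_homog e _ w (Finsupp.mem_support_iff.2 h))

lemma kill_pow (hg : ∀ j, ∀ w ∈ (g j).coeff.support, w.toList ≠ []) {n : ℕ} {l : Wd → F}
    (hl : l ∈ X (rel g) n) (j : ℕ) (u v : Wd) : pr l (g j ^ nu g j) u v = 0 := by
  by_cases h : u.length + v.length ≤ n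
  · obtain ⟨e, he⟩ := Nat.exists_eq_add_of_le h
    rw [pr_comp hl.1 _ u v e (by omega)]
    by_cases h2 : nu g j ≤ e ∧ e ≤ nu g j * dl (g j)
    · rw [← rel_eq hg e j h2]
      exact hl.2 e u v
    · rw [comp_eq_zero (len_g hg j) h2, pr_zero]
  · refine pr_eq_zero fun w _ => hl.1 _ ?_
    rw [List.length_append, List.length_append]
    omega

/-- the local data used at stage `i` -/
lemma exists_stage (hg : ∀ j, ∀ w ∈ (g j).coeff.support, w.toList ≠ []) (i : ℕ) :
    ∃ (l : Wd → F) (D : ℕ) (w : M), 0 < D ∧ (∀ w : Wd, w.length ≠ D → l w = 0) ∧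
      w.toList.length = D ∧ l w.toList ≠ 0 ∧
      ∀ j < i, ∀ (m : ℕ) (u v : Wd), pr (lam l D m) (g j ^ (2 * nu g j)) u v = 0 := by
  obtain ⟨l, hl, w, hw, hlw⟩ := exists_functional (f := rel g) rel_homog
    (rel_small hg 0 (by norm_num)) (rel_small hg 1 (by norm_num)) (2 * nu g i)
  refine ⟨l, 2 * nu g i, FreeMonoid.ofList w, by have := nu_ge g i; omega, hl.1, hw, hlw, ?_⟩
  intro j hj m u v
  rw [two_mul (nu g j), pow_add]
  refine block hl.1 (kill_pow hg hl j) ?_ ?_ m u v
  · intro w hw h0
    have := (len_g hg j w hw).1
    rw [h0] at this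
    have h2 := nu_ge g j
    simp only [List.length_nil] at this
    omega
  · intro w hw
    have h1 := (len_g hg j w hw).2
    have h2 := nu_sep g hj
    omega

end family

lemma lam_supp {l : Wd → F} {D : ℕ} (hs : ∀ w : Wd, w.length ≠ D → l w = 0) :
    ∀ (m : ℕ) (w : Wd), w.length ≠ m * D → lam l D m w = 0 := by
  intro m
  induction m with
  | zero =>
    intro w hw
    refine lam_zero_ne _ _ _ ?_
    rintro rfl
    simp at hw
  | succ m ih =>
    intro w hw
    rw [lam_succ]
    by_cases h : w.length < D
    · rw [hs, zero_mul]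
      rw [List.length_take]
      omega
    · rw [ih, mul_zero]
      rw [List.length_drop]
      intro h2
      apply hw
      rw [Nat.succ_mul]
      omega

lemma lam_pow {l : Wd → F} {D : ℕ} (w : M) (hw : w.toList.length = D) (m : ℕ) :
    lam l D m (w ^ m).toList = l w.toList ^ m := by
  induction m with
  | zero => simp [lam]
  | succ m ih =>
    rw [pow_succ', FreeMonoid.toList_mul, lam_succ, List.take_append_of_le_length (by omega),
      List.drop_append_of_le_length (by omega), List.take_of_length_le (by omega),
      List.drop_of_length_le (by omega), List.nil_append, ih, pow_succ']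

lemma length_pow (w : M) (m : ℕ) : (w ^ m).toList.length = m * w.toList.length := by
  induction m with
  | zero => simp
  | succ m ih =>
    rw [pow_succ', FreeMonoid.toList_mul, List.length_append, ih]
    ring

lemma pr_mul_right_zero {l : Wd → F} {z : W F} (h : ∀ u v, pr l z u v = 0) (z' : W F) (u v : Wd) :
    pr l (z' * z) u v = 0 := by
  rw [pr_mul]
  exact Finset.sum_eq_zero fun w _ => by rw [h, mul_zero]

lemma pr_mul_single (l : Wd → F) (w : M) (c : F) (z : W F) (u v : Wd) :
    pr l (z * MonoidAlgebra.single w c) u v = c * pr l z u (w.toList ++ v) := by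
  induction z using MonoidAlgebra.induction_linear with
  | zero => simp [pr_zero]
  | add x y hx hy => rw [add_mul, pr_add, pr_add, hx, hy]; ring
  | single w' c' =>
    rw [MonoidAlgebra.single_mul_single, pr_single, pr_single, FreeMonoid.toList_mul]
    simp only [List.append_assoc]
    ring

lemma pr_mul_left_zero {l : Wd → F} {z : W F} (h : ∀ u v, pr l z u v = 0) (z' : W F) (u v : Wd) :
    pr l (z * z') u v = 0 := by
  induction z' using MonoidAlgebra.induction_linear with
  | zero => rw [mul_zero, pr_zero]
  | add x y hx hy => rw [mul_add, pr_add, hx, hy, add_zero]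
  | single w' c' => rw [pr_mul_single, h, mul_zero]

/-- the largest ideal on which all functionals `L i` vanish -/
def J (L : ℕ → Wd → F) : Ideal (W F) where
  carrier := {z | ∀ (i : ℕ) (u v : Wd), pr (L i) z u v = 0}
  add_mem' := by
    intro a b ha hb i u v
    rw [pr_add, ha, hb, add_zero]
  zero_mem' := by
    intro i u v
    exact pr_zero _ _ _
  smul_mem' := by
    intro c x hx i u v
    exact pr_mul_right_zero (hx i) c u v

lemma mem_J {L : ℕ → Wd → F} {z : W F} : z ∈ J L ↔ ∀ (i : ℕ) (u v : Wd), pr (L i) z u v = 0 :=
  Iff.rfl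

instance (L : ℕ → Wd → F) : (J L).IsTwoSided := ⟨by
  intro a b ha i u v
  exact pr_mul_left_zero (ha i) b u v⟩

/-- `pr` as a linear map in the polynomial -/
noncomputable def prL (l : Wd → F) (u v : Wd) : W F →ₗ[F] F where
  toFun z := pr l z u v
  map_add' := fun a b => pr_add l a b u v
  map_smul' := fun a b => by simp [pr_smul]

lemma prL_apply (l : Wd → F) (u v : Wd) (z : W F) : prL l u v z = pr l z u v := rfl

instance [Countable F] : Countable (W F) :=
  (MonoidAlgebra.coeffEquiv (R := F) (M := M)).injective.countable

theorem exists_ideal [Countable F] (pol : ℕ → M → Polynomial F)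
    (hpol : ∀ i w, w.toList ≠ [] → pol i w ≠ 0 ∧ (pol i w).coeff 0 = 0) :
    ∃ L : ℕ → Wd → F, (∀ z : W F, (∀ w ∈ z.coeff.support, w.toList ≠ []) → ∃ n, z ^ n ∈ J L) ∧
      ∀ i, ∃ w : M, w.toList ≠ [] ∧
        Polynomial.aeval (MonoidAlgebra.single w (1 : F) : W F) (pol i w) ∉ J L := by
  classical
  have hne : Nonempty {z : W F // ∀ w ∈ z.coeff.support, w.toList ≠ []} := ⟨⟨0, by simp⟩⟩
  obtain ⟨g', hg'⟩ := exists_surjective_nat {z : W F // ∀ w ∈ z.coeff.support, w.toList ≠ []}
  set g : ℕ → W F := fun j => (g' j).1 with hgdef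
  have hg : ∀ j, ∀ w ∈ (g j).coeff.support, w.toList ≠ [] := fun j => (g' j).2
  choose l D w hD hs hwD hlw hkill using fun i => exists_stage (g := g) hg i
  have hw0 : ∀ i, (w i).toList ≠ [] := by
    intro i h
    have := hwD i
    rw [h] at this
    have h2 := hD i
    simp only [List.length_nil] at this
    omega
  have hm : ∀ i, ∃ m, (pol i (w i)).coeff m ≠ 0 := by
    intro i
    by_contra hcon
    push Not at hcon
    exact (hpol i (w i) (hw0 i)).1 (Polynomial.ext (by simpa using hcon))
  choose m hm using hm
  refine ⟨fun i => lam (l i) (D i) (m i), ?_, ?_⟩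
  · intro z hz
    obtain ⟨j, hj⟩ := hg' ⟨z, hz⟩
    have hzj : z = g j := by rw [hgdef]; simp [hj]
    refine ⟨2 * nu g j + ∑ i ∈ Finset.range (j + 1), (m i * D i + 1), ?_⟩
    intro i u v
    by_cases hij : j < i
    · rw [pow_add, hzj]
      exact pr_mul_left_zero (hkill i j hij (m i)) _ u v
    · refine pr_eq_zero fun w' hw' => lam_supp (hs i) _ _ ?_
      have hlen : Len 1 (dl z) z := fun w'' hw'' =>
        ⟨List.length_pos_of_ne_nil (hz w'' hw''), le_dl _ _ hw''⟩
      have h1 := (hlen.pow _ w' hw').1
      have h2 : m i * D i + 1 ≤ ∑ i ∈ Finset.range (j + 1), (m i * D i + 1) :=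
        Finset.single_le_sum (f := fun i => m i * D i + 1) (fun _ _ => Nat.zero_le _)
          (Finset.mem_range.2 (by omega))
      rw [List.length_append, List.length_append]
      omega
  · intro i
    refine ⟨w i, hw0 i, ?_⟩
    intro hcon
    have h1 := hcon i [] []
    rw [← prL_apply, Polynomial.aeval_eq_sum_range, map_sum] at h1
    have h2 : ∀ k ∈ Finset.range ((pol i (w i)).natDegree + 1),
        (prL (lam (l i) (D i) (m i)) [] []) ((pol i (w i)).coeff k •
          (MonoidAlgebra.single (w i) (1 : F) : W F) ^ k) =
        if k = m i then (pol i (w i)).coeff (m i) * l i (w i).toList ^ m i else 0 := by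
      intro k _
      rw [map_smul, prL_apply, MonoidAlgebra.single_pow, one_pow, pr_single, smul_eq_mul]
      simp only [List.nil_append, List.append_nil, one_mul]
      split_ifs with hk
      · subst hk
        rw [lam_pow (w i) (hwD i)]
      · rw [lam_supp (hs i), mul_zero]
        rw [length_pow, hwD]
        intro h
        exact hk (Nat.eq_of_mul_eq_mul_right (hD i) h)
    rw [Finset.sum_congr rfl h2, Finset.sum_ite_eq' (Finset.range _) (m i),
      if_pos (Finset.mem_range.2 (Nat.lt_succ_of_le (Polynomial.le_natDegree_of_ne_zero (hm i))))]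
      at h1
    exact (mul_ne_zero (hm i) (pow_ne_zero _ (hlw i))) h1

/-- values of nonempty words lie in the non-unital algebra -/
lemma exists_val {A : Type v} [NonUnitalRing A] [Module F A] [IsScalarTower F A A]
    [SMulCommClass F A A] (a : Fin 3 → A) (w : M) (hw : w.toList ≠ []) :
    ∃ c : A, FreeMonoid.lift (fun i => (a i : Unitization F A)) w = (c : Unitization F A) := by
  induction w using FreeMonoid.recOn with
  | one => simp at hw
  | of_mul x w ih =>
    by_cases h : w.toList = []
    · have : w = 1 := FreeMonoid.toList.injective (by simpa using h)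
      subst this
      exact ⟨a x, by simp⟩
    · obtain ⟨c, hc⟩ := ih h
      exact ⟨a x * c, by simp [hc]⟩

/-- the non-unital subalgebra of polynomials without constant term -/
def Wp (F : Type u) [Field F] : NonUnitalSubalgebra F (W F) where
  carrier := {z | ∀ w ∈ z.coeff.support, w.toList ≠ []}
  add_mem' := by
    classical
    intro a b ha hb w hw
    rw [MonoidAlgebra.coeff_add] at hw
    rcases Finset.mem_union.1 (Finsupp.support_add hw) with h | h
    · exact ha w h
    · exact hb w h
  zero_mem' := by simp
  mul_mem' := by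
    classical
    intro a b ha hb w hw
    obtain ⟨w1, h1, w2, h2, rfl⟩ := Finset.mem_mul.1 (MonoidAlgebra.support_coeff_mul_subset a b hw)
    have := ha w1 h1
    rw [FreeMonoid.toList_mul]
    simp [this]
  smul_mem' := by
    intro c x hx w hw
    refine hx w ?_
    rw [MonoidAlgebra.coeff_smul] at hw
    exact Finsupp.support_smul hw

theorem main (F : Type u) [Field F] [Countable F] (A : Type v) [NonUnitalRing A] [Module F A]
    [IsScalarTower F A A] [SMulCommClass F A A] [Countable A]
    (halg : ∀ a : A, ∃ p : Polynomial F, p ≠ 0 ∧ p.coeff 0 = 0 ∧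
      Polynomial.aeval (a : Unitization F A) p = 0) :
    ∃ (Q : Type u) (_ : Ring Q) (_ : Algebra F Q) (B : NonUnitalSubalgebra F Q),
      Countable B ∧ (∀ b : B, IsNilpotent (b : Q)) ∧ ¬ ∃ f : A →ₙₐ[F] B, Function.Surjective f := by
  classical
  obtain ⟨tr, htr⟩ := exists_surjective_nat (Fin 3 → A)
  have hex : ∀ (i : ℕ) (w : M), ∃ p : Polynomial F, w.toList ≠ [] → (p ≠ 0 ∧ p.coeff 0 = 0 ∧
      Polynomial.aeval (FreeMonoid.lift (fun k => ((tr i k : A) : Unitization F A)) w) p = 0) := by
    intro i w
    by_cases hw : w.toList = []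
    · exact ⟨0, fun h => absurd hw h⟩
    · obtain ⟨c, hc⟩ := exists_val (F := F) (tr i) w hw
      obtain ⟨p, h1, h2, h3⟩ := halg c
      exact ⟨p, fun _ => ⟨h1, h2, by rw [hc]; exact h3⟩⟩
  choose pol hpol using hex
  obtain ⟨L, hnil, hnot⟩ := exists_ideal pol fun i w hw => ⟨(hpol i w hw).1, (hpol i w hw).2.1⟩
  let π : W F →ₐ[F] (W F ⧸ J L) := Ideal.Quotient.mkₐ F (J L)
  let B : NonUnitalSubalgebra F (W F ⧸ J L) := (Wp F).map (π : W F →ₙₐ[F] (W F ⧸ J L))
  have hπsurj : Function.Surjective π := Ideal.Quotient.mkₐ_surjective F (J L)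
  have hπker : ∀ z, π z = 0 ↔ z ∈ J L := fun z => Ideal.Quotient.eq_zero_iff_mem
  have hB : ∀ b : B, ∃ z : W F, z ∈ Wp F ∧ π z = (b : W F ⧸ J L) := by
    intro b
    obtain ⟨z, hz, hzb⟩ := b.2
    exact ⟨z, hz, hzb⟩
  have hletter : ∀ k : Fin 3, π (MonoidAlgebra.single (FreeMonoid.of k) 1) ∈ B := by
    intro k
    refine ⟨MonoidAlgebra.single (FreeMonoid.of k) 1, ?_, rfl⟩
    intro w hw
    rw [MonoidAlgebra.coeff_single] at hw
    have := Finsupp.support_single_subset hw
    rw [Finset.mem_singleton] at this
    subst this
    simp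
  refine ⟨W F ⧸ J L, inferInstance, inferInstance, B, ?_, ?_, ?_⟩
  · have : Countable (W F ⧸ J L) := hπsurj.countable
    exact Subtype.countable
  · intro b
    obtain ⟨z, hz, hzb⟩ := hB b
    obtain ⟨n, hn⟩ := hnil z hz
    exact ⟨n, by rw [← hzb, ← map_pow]; exact (hπker _).2 hn⟩
  · rintro ⟨f, hf⟩
    choose a ha using fun k : Fin 3 => hf ⟨π (MonoidAlgebra.single (FreeMonoid.of k) 1), hletter k⟩
    obtain ⟨i, hi⟩ := htr a
    obtain ⟨w, hw, hw2⟩ := hnot i
    apply hw2
    rw [← hπker]
    let φ : Unitization F A →ₐ[F] (W F ⧸ J L) :=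
      Unitization.lift ((NonUnitalSubalgebraClass.subtype B).comp f)
    have hφ : ∀ c : A, φ (c : Unitization F A) = (f c : W F ⧸ J L) := by
      intro c
      simp [φ]
    have hword : ∀ w : M, φ (FreeMonoid.lift (fun k => ((tr i k : A) : Unitization F A)) w) =
        π (MonoidAlgebra.single w 1) := by
      intro w
      have : ((φ : Unitization F A →* (W F ⧸ J L)).comp
          (FreeMonoid.lift (fun k => ((tr i k : A) : Unitization F A)))) =
          (π : W F →* (W F ⧸ J L)).comp (MonoidAlgebra.of F M) := by
        refine FreeMonoid.hom_eq fun k => ?_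
        simp only [MonoidHom.comp_apply, FreeMonoid.lift_eval_of, MonoidHom.coe_coe, hi]
        rw [hφ, ha]
        rfl
      exact DFunLike.congr_fun this w
    have h3 := (hpol i w hw).2.2
    have h4 := congrArg φ h3
    rw [map_zero, ← Polynomial.aeval_algHom_apply, hword, Polynomial.aeval_algHom_apply] at h4
    exact h4

end Pool.Agent.Helper30.NilUniv
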